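import Mathlib

/-!
# Patching: algebra
-/

set_option autoImplicit false

namespace Pool.Agent.W2helper17.PF

open Matrix

variable {F : Type} [Field F] {n : ℕ} {Γ : Type} [Group Γ]

/-- The matrices `ρ h` span the ring of all matrices. -/
def Full (ρ : Γ →* GL (Fin n) F) : Prop :=
  Submodule.span F (Set.range fun h => (ρ h : Matrix (Fin n) (Fin n) F)) = ⊤

/-- all conjugations agree if they agree on a full representation -/
theorem conj_all {ρ : Γ →* GL (Fin n) F} (hf : Full ρ) {X Y : GL (Fin n) F}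
    (h : ∀ g, X * ρ g * X⁻¹ = Y * ρ g * Y⁻¹) (A : GL (Fin n) F) : X * A * X⁻¹ = Y * A * Y⁻¹ := by
  have key : ∀ B : Matrix (Fin n) (Fin n) F,
      (X : Matrix (Fin n) (Fin n) F) * B * (X⁻¹ : GL (Fin n) F) =
        (Y : Matrix (Fin n) (Fin n) F) * B * (Y⁻¹ : GL (Fin n) F) := by
    intro B
    have hB : B ∈ Submodule.span F (Set.range fun h => (ρ h : Matrix (Fin n) (Fin n) F)) := by
      rw [hf]
      exact Submodule.mem_top
    induction hB using Submodule.span_induction with
    | mem B hB =>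
      obtain ⟨g, rfl⟩ := hB
      have := congrArg (fun Z : GL (Fin n) F => (Z : Matrix (Fin n) (Fin n) F)) (h g)
      simpa only [Units.val_mul] using this
    | zero => simp
    | add B C _ _ hB hC => rw [mul_add, mul_add, add_mul, add_mul, hB, hC]
    | smul c B _ hB => rw [mul_smul_comm, mul_smul_comm, smul_mul_assoc, smul_mul_assoc, hB]
  apply Units.ext
  simpa only [Units.val_mul] using key (A : Matrix (Fin n) (Fin n) F)

/-- automorphisms of the matrix ring are inner -/
theorem inner_aut (f : Matrix (Fin n) (Fin n) F ≃ₐ[F] Matrix (Fin n) (Fin n) F) :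
    ∃ X : GL (Fin n) F, ∀ A, f A = (X : Matrix (Fin n) (Fin n) F) * A * (X⁻¹ : GL (Fin n) F) := by
  let e : Matrix (Fin n) (Fin n) F ≃ₐ[F] ((Fin n → F) →ₗ[F] (Fin n → F)) := Matrix.toLinAlgEquiv'
  let f' : Module.End F (Fin n → F) ≃ₐ[F] Module.End F (Fin n → F) := e.symm.trans (f.trans e)
  obtain ⟨T, hT⟩ := f'.eq_linearEquivConjAlgEquiv
  let X : GL (Fin n) F := ⟨e.symm (T : (Fin n → F) →ₗ[F] (Fin n → F)),
    e.symm (T.symm : (Fin n → F) →ₗ[F] (Fin n → F)), by
      rw [← map_mul]
      have : (T : (Fin n → F) →ₗ[F] (Fin n → F)) * (T.symm : (Fin n → F) →ₗ[F] (Fin n → F)) = 1 :=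
        LinearMap.ext fun x => T.apply_symm_apply x
      rw [this, map_one], by
      rw [← map_mul]
      have : (T.symm : (Fin n → F) →ₗ[F] (Fin n → F)) * (T : (Fin n → F) →ₗ[F] (Fin n → F)) = 1 :=
        LinearMap.ext fun x => T.symm_apply_apply x
      rw [this, map_one]⟩
  refine ⟨X, fun A => ?_⟩
  apply e.injective
  have h1 : e (f A) = f' (e A) := by
    simp [f']
  have h2 : e (X : Matrix (Fin n) (Fin n) F) = (T : (Fin n → F) →ₗ[F] (Fin n → F)) :=
    e.apply_symm_apply _
  have h3 : e ((X⁻¹ : GL (Fin n) F) : Matrix (Fin n) (Fin n) F) =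
      (T.symm : (Fin n → F) →ₗ[F] (Fin n → F)) := e.apply_symm_apply _
  rw [h1, hT, map_mul, map_mul, h2, h3]
  rfl

/-- **Brauer-Nesbitt** for a full representation. -/
theorem bn {ρ ρ' : Γ →* GL (Fin n) F} (hf : Full ρ)
    (ht : ∀ h, trace (ρ h : Matrix (Fin n) (Fin n) F) = trace (ρ' h : Matrix (Fin n) (Fin n) F)) :
    ∃ X : GL (Fin n) F, ∀ h, ρ' h = X * ρ h * X⁻¹ := by
  classical
  let R := MonoidAlgebra F Γ
  let Φ : R →ₐ[F] Matrix (Fin n) (Fin n) F := MonoidAlgebra.lift F _ Γ
    ((Units.coeHom (Matrix (Fin n) (Fin n) F)).comp ρ)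
  let Φ' : R →ₐ[F] Matrix (Fin n) (Fin n) F := MonoidAlgebra.lift F _ Γ
    ((Units.coeHom (Matrix (Fin n) (Fin n) F)).comp ρ')
  have hΦ1 : ∀ g, Φ (MonoidAlgebra.of F Γ g) = ρ g := fun g =>
    MonoidAlgebra.lift_of ((Units.coeHom (Matrix (Fin n) (Fin n) F)).comp ρ) g
  have hΦ1' : ∀ g, Φ' (MonoidAlgebra.of F Γ g) = ρ' g := fun g =>
    MonoidAlgebra.lift_of ((Units.coeHom (Matrix (Fin n) (Fin n) F)).comp ρ') g
  have hsurj : Function.Surjective Φ := by
    intro A
    have hA : A ∈ Submodule.span F (Set.range fun h => (ρ h : Matrix (Fin n) (Fin n) F)) := by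
      rw [hf]
      exact Submodule.mem_top
    induction hA using Submodule.span_induction with
    | mem B hB =>
      obtain ⟨g, rfl⟩ := hB
      exact ⟨_, hΦ1 g⟩
    | zero => exact ⟨0, map_zero _⟩
    | add B C _ _ hB hC =>
      obtain ⟨x, rfl⟩ := hB
      obtain ⟨y, rfl⟩ := hC
      exact ⟨x + y, map_add _ _ _⟩
    | smul c B _ hB =>
      obtain ⟨x, rfl⟩ := hB
      exact ⟨c • x, map_smul _ _ _⟩
  have htr : ∀ x, trace (Φ x) = trace (Φ' x) := by
    intro x
    have h1 : (Matrix.traceLinearMap (Fin n) F F).comp Φ.toLinearMap =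
        (Matrix.traceLinearMap (Fin n) F F).comp Φ'.toLinearMap := by
      apply MonoidAlgebra.lhom_ext'
      intro g
      ext1
      have e1 : Φ (MonoidAlgebra.single g (1 : F)) = ρ g := hΦ1 g
      have e2 : Φ' (MonoidAlgebra.single g (1 : F)) = ρ' g := hΦ1' g
      simp only [LinearMap.comp_apply, MonoidAlgebra.lsingle_apply, AlgHom.toLinearMap_apply,
        Matrix.traceLinearMap_apply, e1, e2, ht]
    exact LinearMap.congr_fun h1 x
  have hker : ∀ x, Φ' x = 0 → Φ x = 0 := by
    intro x hx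
    refine Matrix.ext_iff_trace_mul_right.2 fun A => ?_
    obtain ⟨y, rfl⟩ := hsurj A
    rw [← map_mul, htr, map_mul, hx, zero_mul, zero_mul]
  -- `Φ'` is surjective
  have hsurj' : Function.Surjective Φ' := by
    have hle : LinearMap.ker Φ'.toLinearMap ≤ LinearMap.ker Φ.toLinearMap := fun x hx =>
      hker x hx
    let q := (LinearMap.ker Φ'.toLinearMap).liftQ Φ.toLinearMap hle
    let g : LinearMap.range Φ'.toLinearMap →ₗ[F] Matrix (Fin n) (Fin n) F :=
      q ∘ₗ (Φ'.toLinearMap.quotKerEquivRange.symm : _ →ₗ[F] _)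
    have hg : Function.Surjective g := by
      intro A
      obtain ⟨x, rfl⟩ := hsurj A
      refine ⟨Φ'.toLinearMap.quotKerEquivRange (Submodule.Quotient.mk x), ?_⟩
      simp only [g, LinearMap.comp_apply, LinearEquiv.coe_coe, LinearEquiv.symm_apply_apply]
      rfl
    have h1 := LinearMap.finrank_le_finrank_of_surjective hg
    have h2 : LinearMap.range Φ'.toLinearMap = ⊤ :=
      Submodule.eq_top_of_finrank_eq (le_antisymm (Submodule.finrank_le _) h1)
    exact LinearMap.range_eq_top.1 h2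
  have hker' : ∀ x, Φ x = 0 → Φ' x = 0 := by
    intro x hx
    refine Matrix.ext_iff_trace_mul_right.2 fun A => ?_
    obtain ⟨y, rfl⟩ := hsurj' A
    rw [← map_mul, ← htr, map_mul, hx, zero_mul, zero_mul]
  have hwd : ∀ x y, Φ x = Φ y → Φ' x = Φ' y := by
    intro x y h
    have := hker' (x - y) (by rw [map_sub, h, sub_self])
    rw [map_sub] at this
    exact sub_eq_zero.1 this
  let s : Matrix (Fin n) (Fin n) F → R := Function.surjInv hsurj
  have hs : ∀ A, Φ (s A) = A := Function.surjInv_eq hsurj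
  let f : Matrix (Fin n) (Fin n) F →ₐ[F] Matrix (Fin n) (Fin n) F :=
    AlgHom.ofLinearMap
      { toFun := fun A => Φ' (s A)
        map_add' := fun A B => by
          rw [← map_add]
          exact hwd _ _ (by rw [hs, map_add, hs, hs])
        map_smul' := fun c A => by
          rw [RingHom.id_apply, ← map_smul]
          exact hwd _ _ (by rw [hs, map_smul, hs]) }
      (by
        exact (hwd (s 1) 1 (by rw [hs]; exact (map_one Φ).symm)).trans (map_one Φ'))
      (fun A B => by
        change Φ' (s (A * B)) = Φ' (s A) * Φ' (s B)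
        rw [← map_mul]
        exact hwd _ _ (by rw [hs, map_mul, hs, hs]))
  have hf1 : ∀ x, f (Φ x) = Φ' x := fun x => hwd _ _ (hs _)
  have hfs : Function.Surjective f := by
    intro A
    obtain ⟨x, rfl⟩ := hsurj' A
    exact ⟨Φ x, hf1 x⟩
  have hfi : Function.Injective f :=
    LinearMap.injective_iff_surjective (f := f.toLinearMap).2 hfs
  obtain ⟨X, hX⟩ := inner_aut (AlgEquiv.ofBijective f ⟨hfi, hfs⟩)
  refine ⟨X, fun h => ?_⟩
  apply Units.ext
  have h1 := hX (ρ h)
  rw [Units.val_mul, Units.val_mul, ← h1, ← hΦ1 h]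
  change _ = f _
  rw [hf1, hΦ1']

/-- some trace on a coset is not zero -/
theorem exists_trace_ne (hn : 0 < n) {ρ : Γ →* GL (Fin n) F} (hf : Full ρ) (A : GL (Fin n) F) :
    ∃ h, trace ((A : Matrix (Fin n) (Fin n) F) * (ρ h : Matrix (Fin n) (Fin n) F)) ≠ 0 := by
  by_contra hcon
  push Not at hcon
  have h1 : (A : Matrix (Fin n) (Fin n) F) = 0 := by
    refine Matrix.ext_iff_trace_mul_right.2 fun B => ?_
    rw [zero_mul, trace_zero]
    have hB : B ∈ Submodule.span F (Set.range fun h => (ρ h : Matrix (Fin n) (Fin n) F)) := by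
      rw [hf]
      exact Submodule.mem_top
    induction hB using Submodule.span_induction with
    | mem B hB =>
      obtain ⟨g, rfl⟩ := hB
      exact hcon g
    | zero => simp
    | add B C _ _ hB hC => rw [mul_add, trace_add, hB, hC, add_zero]
    | smul c B _ hB => rw [mul_smul_comm, trace_smul, hB, smul_zero]
  have : Nonempty (Fin n) := ⟨⟨0, hn⟩⟩
  exact A.ne_zero h1

end Pool.Agent.W2helper17.PF
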