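import Mathlib

/-!
# Maps which are multiplicative on a covering family of subgroups of coprime indices
-/

set_option autoImplicit false

namespace Pool.Agent.W2helper17.PF

open MulAction

instance centerComm {G : Type} [Group G] : CommGroup (Subgroup.center G) :=
  { (inferInstance : Group (Subgroup.center G)) with
    mul_comm := fun a b => Subtype.ext (Subgroup.mem_center_iff.1 b.2 a) }

section rigid
variable {G A : Type} [Group G] [Group A] {ι : Type} {H : ι → Subgroup G}
  (hcov : ∀ g, ∃ i, ∃ τ, τ * g * τ⁻¹ ∈ H i) {s : G → A}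
  (hs : ∀ i, ∀ a ∈ H i, ∀ b ∈ H i, s (a * b) = s a * s b)
  (hc : ∀ g h, s (g * h * g⁻¹) = s g * s h * (s g)⁻¹)

include hcov hs in
theorem s_one : s 1 = 1 := by
  obtain ⟨i, _, _⟩ := hcov 1
  have h := hs i 1 (H i).one_mem 1 (H i).one_mem
  rw [mul_one] at h
  exact (mul_eq_left.1 h.symm)

include hs hc in
theorem s_mul_conj {i : ι} {τ a b : G} (ha : τ * a * τ⁻¹ ∈ H i) (hb : τ * b * τ⁻¹ ∈ H i) :
    s (a * b) = s a * s b := by
  have h := hs i _ ha _ hb
  have e : τ * a * τ⁻¹ * (τ * b * τ⁻¹) = τ * (a * b) * τ⁻¹ := by group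
  rw [e, hc, hc, hc] at h
  have h1 : s τ * s (a * b) * (s τ)⁻¹ = s τ * (s a * s b) * (s τ)⁻¹ := by
    rw [h]
    group
  exact mul_left_cancel (mul_right_cancel h1)

include hcov hs hc in
theorem s_pow (g : G) (k : ℕ) : s (g ^ k) = s g ^ k := by
  obtain ⟨i, τ, h⟩ := hcov g
  induction k with
  | zero => rw [pow_zero, pow_zero, s_one hcov hs]
  | succ k ih =>
    have h1 : τ * g ^ k * τ⁻¹ ∈ H i := by
      rw [← conj_pow]
      exact (H i).pow_mem h k
    rw [pow_succ, s_mul_conj hs hc h1 h, ih, pow_succ]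

variable (s) in
/-- the group generated by the pairs `(s g, g)` -/
def EE : Subgroup (A × G) := Subgroup.closure (Set.range fun g => (s g, g))

variable (s) in
/-- the section -/
def sec (g : G) : EE s := ⟨(s g, g), Subgroup.subset_closure ⟨g, rfl⟩⟩

include hc in
theorem EE_conj {e : A × G} (he : e ∈ EE s) (x : G) :
    e.1 * s x * e.1⁻¹ = s (e.2 * x * e.2⁻¹) := by
  have key : ∀ e ∈ EE s, ∀ x, e.1 * s x * e.1⁻¹ = s (e.2 * x * e.2⁻¹) := by
    intro e he
    induction he using Subgroup.closure_induction with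
    | mem e he =>
      obtain ⟨g, rfl⟩ := he
      exact fun x => (hc g x).symm
    | one => intro x; simp
    | mul a b _ _ ha hb =>
      intro x
      calc (a * b).1 * s x * (a * b).1⁻¹ = a.1 * (b.1 * s x * b.1⁻¹) * a.1⁻¹ := by
            rw [Prod.fst_mul]
            group
        _ = s ((a * b).2 * x * (a * b).2⁻¹) := by
            rw [hb, ha, Prod.snd_mul]
            congr 1
            group
    | inv a _ ha =>
      intro x
      have h := ha (a.2⁻¹ * x * a.2)
      have e : a.2 * (a.2⁻¹ * x * a.2) * a.2⁻¹ = x := by group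
      rw [e] at h
      rw [← h, Prod.fst_inv, Prod.snd_inv, inv_inv, inv_inv]
      group
  exact key e he x

include hc in
theorem EE_central {e : A × G} (he : e ∈ EE s) (h1 : e.2 = 1) {f : A × G} (hf : f ∈ EE s) :
    f.1 * e.1 = e.1 * f.1 := by
  have h2 : ∀ x, e.1 * s x = s x * e.1 := by
    intro x
    have := EE_conj hc he x
    rw [h1, one_mul, inv_one, mul_one] at this
    rw [← mul_inv_eq_iff_eq_mul]
    exact this
  induction hf using Subgroup.closure_induction with
  | mem f hf =>
    obtain ⟨g, rfl⟩ := hf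
    exact (h2 g).symm
  | one => simp
  | mul a b _ _ ha hb =>
    rw [Prod.fst_mul, mul_assoc, hb, ← mul_assoc, ha, mul_assoc]
  | inv a _ ha =>
    rw [Prod.fst_inv, inv_mul_eq_iff_eq_mul, ← mul_assoc, ha, mul_inv_cancel_right]

include hc in
theorem EE_mem_center {e : EE s} (h1 : (e : A × G).2 = 1) : e ∈ Subgroup.center (EE s) := by
  rw [Subgroup.mem_center_iff]
  intro f
  apply Subtype.ext
  apply Prod.ext
  · exact EE_central hc e.2 h1 f.2
  · change (f : A × G).2 * (e : A × G).2 = (e : A × G).2 * (f : A × G).2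
    rw [h1, mul_one, one_mul]

variable (s) in
/-- the projection to `G` -/
def pr : EE s →* G := (MonoidHom.snd A G).comp (EE s).subtype

theorem pr_apply (e : EE s) : pr s e = (e : A × G).2 := rfl

theorem pr_sec (g : G) : pr s (sec s g) = g := rfl

theorem pr_surj : Function.Surjective (pr s) := fun g => ⟨sec s g, rfl⟩

/-- the central part of an element -/
def cen (e : EE s) : Subgroup.center (EE s) :=
  ⟨e * (sec s (pr s e))⁻¹, EE_mem_center hc (by
    change (pr s) (e * (sec s (pr s e))⁻¹) = 1
    rw [map_mul, map_inv, pr_sec, mul_inv_cancel])⟩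

/-- the retraction over `H i` -/
def ret (i : ι) : (H i).comap (pr s) →* Subgroup.center (EE s) where
  toFun e := cen hc e
  map_one' := by
    apply Subtype.ext
    change (1 : EE s) * (sec s (pr s 1))⁻¹ = 1
    rw [map_one, one_mul, inv_eq_one]
    apply Subtype.ext
    have h := hs i 1 (H i).one_mem 1 (H i).one_mem
    rw [mul_one] at h
    exact Prod.ext (mul_eq_left.1 h.symm) rfl
  map_mul' := by
    rintro ⟨a, ha⟩ ⟨b, hb⟩
    apply Subtype.ext
    change a * b * (sec s (pr s (a * b)))⁻¹ = (a * (sec s (pr s a))⁻¹) * (b * (sec s (pr s b))⁻¹)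
    have h1 : sec s (pr s (a * b)) = sec s (pr s a) * sec s (pr s b) := by
      apply Subtype.ext
      refine Prod.ext ?_ ?_
      · change s (pr s (a * b)) = s (pr s a) * s (pr s b)
        rw [map_mul]
        exact hs i _ ha _ hb
      · exact map_mul _ _ _
    have h2 := Subgroup.mem_center_iff.1 (cen hc b).2 (sec s (pr s a))⁻¹
    change (sec s (pr s a))⁻¹ * (b * (sec s (pr s b))⁻¹) =
      (b * (sec s (pr s b))⁻¹) * (sec s (pr s a))⁻¹ at h2
    rw [h1, mul_inv_rev, mul_assoc a (sec s (pr s a))⁻¹, h2]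
    group

theorem ret_apply (i : ι) (e : EE s) (he : e ∈ (H i).comap (pr s)) :
    ret hs hc i ⟨e, he⟩ = cen hc e := rfl

theorem cen_eq_one {e : EE s} (h : (e : A × G).1 = s (pr s e)) : cen hc e = 1 := by
  apply Subtype.ext
  change e * (sec s (pr s e))⁻¹ = 1
  rw [mul_inv_eq_one]
  exact Subtype.ext (Prod.ext h rfl)

include hcov hs hc in
/-- **A map which is multiplicative on a covering family of subgroups, whose indices have no common
divisor, and which is compatible with conjugation, is a homomorphism.** -/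
theorem rigid_of_gcd (hfin : ∀ i, (H i).FiniteIndex) (hgcd : ∀ d : ℕ, (∀ i, d ∣ (H i).index) → d = 1)
    (g h : G) : s (g * h) = s g * s h := by
  classical
  have hidx : ∀ i, ((H i).comap (pr s)).index = (H i).index := fun i =>
    Subgroup.index_comap_of_surjective _ pr_surj
  have hfi : ∀ i, ((H i).comap (pr s)).FiniteIndex := fun i =>
    ⟨by rw [hidx]; exact (hfin i).index_ne_zero⟩
  -- the transfer of the section
  have h1 : ∀ i, ∀ x : G,
      (MonoidHom.transfer (ret hs hc i) : EE s →* Subgroup.center (EE s)) (sec s x) = 1 := by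
    intro i x
    haveI : Finite (EE s ⧸ (H i).comap (pr s)) := inferInstance
    haveI := Fintype.ofFinite (Quotient (orbitRel (Subgroup.zpowers (sec s x))
      (EE s ⧸ (H i).comap (pr s))))
    rw [MonoidHom.transfer_eq_prod_quotient_orbitRel_zpowers_quot]
    apply Finset.prod_eq_one
    intro q _
    rw [ret_apply]
    apply cen_eq_one
    generalize Function.minimalPeriod (sec s x • ·) q.out = k
    generalize q.out.out = y
    have h2 := EE_conj hc (EE s |>.inv_mem y.2) (x ^ k)
    change ((y : A × G).1)⁻¹ * (s x) ^ k * (y : A × G).1 =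
      s (((y : A × G).2)⁻¹ * x ^ k * (y : A × G).2)
    rw [← s_pow hcov hs hc]
    rw [Prod.fst_inv, Prod.snd_inv, inv_inv, inv_inv] at h2
    exact h2
  -- the central element
  let z : EE s := sec s g * sec s h * (sec s (g * h))⁻¹
  have hz : pr s z = 1 := by
    change pr s (sec s g * sec s h * (sec s (g * h))⁻¹) = 1
    rw [map_mul, map_mul, map_inv, pr_sec, pr_sec, pr_sec, mul_inv_cancel]
  have hzc : z ∈ Subgroup.center (EE s) := EE_mem_center hc hz
  have h2 : ∀ i, z ^ (H i).index = 1 := by
    intro i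
    haveI := hfi i
    have h3 : MonoidHom.transfer (ret hs hc i) z = 1 := by
      change MonoidHom.transfer (ret hs hc i) (sec s g * sec s h * (sec s (g * h))⁻¹) = 1
      rw [map_mul, map_mul, map_inv, h1, h1, h1, inv_one, one_mul, one_mul]
    rw [MonoidHom.transfer_eq_pow _ z (fun k g₀ _ => by
      have h4 := Subgroup.mem_center_iff.1 ((Subgroup.center (EE s)).pow_mem hzc k) g₀
      rw [mul_assoc, ← h4, inv_mul_cancel_left])] at h3
    rw [ret_apply] at h3
    have h5 := congrArg (Subtype.val) h3
    change z ^ ((H i).comap (pr s)).index *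
      (sec s (pr s (z ^ ((H i).comap (pr s)).index)))⁻¹ = 1 at h5
    rw [map_pow, hz, one_pow, hidx] at h5
    have h6 : sec s 1 = 1 := Subtype.ext (Prod.ext (s_one hcov hs) rfl)
    rwa [h6, inv_one, mul_one] at h5
  have h3 : z = 1 := by
    rw [← orderOf_eq_one_iff]
    exact hgcd _ fun i => orderOf_dvd_of_pow_eq_one (h2 i)
  have h4 : (z : A × G).1 = 1 := by rw [h3]; rfl
  change s g * s h * (s (g * h))⁻¹ = 1 at h4
  exact (mul_inv_eq_one.1 h4).symm

end rigid

end Pool.Agent.W2helper17.PF
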