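import Pool.Agent.W2helper17.PF.Patch
import Pool.Agent.W2helper17.PF.Rigid

/-!
# Patching over a covering family of subgroups
-/

set_option autoImplicit false

namespace Pool.Agent.W2helper17.PF

open Matrix

variable {F : Type} [Field F] {n : ℕ}

/-- a matrix is determined by the traces of its products with a full representation -/
theorem eq_of_trace {Γ : Type} [Group Γ] {ρ : Γ →* GL (Fin n) F} (hf : Full ρ) {A B : GL (Fin n) F}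
    (h : ∀ m, trace ((A * ρ m : GL (Fin n) F) : Matrix (Fin n) (Fin n) F) =
      trace ((B * ρ m : GL (Fin n) F) : Matrix (Fin n) (Fin n) F)) : A = B := by
  apply Units.ext
  refine Matrix.ext_iff_trace_mul_right.2 fun C => ?_
  have hC : C ∈ Submodule.span F (Set.range fun h => (ρ h : Matrix (Fin n) (Fin n) F)) := by
    rw [hf]
    exact Submodule.mem_top
  induction hC using Submodule.span_induction with
  | mem C hC =>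
    obtain ⟨g, rfl⟩ := hC
    have := h g
    rwa [Units.val_mul, Units.val_mul] at this
  | zero => simp
  | add B C _ _ hB hC => rw [mul_add, trace_add, hB, hC, mul_add, trace_add]
  | smul c B _ hB => rw [mul_smul_comm, trace_smul, hB, mul_smul_comm, trace_smul]

/-- the trace is invariant under conjugation -/
theorem tr_conj (X A : GL (Fin n) F) :
    trace ((X * A * X⁻¹ : GL (Fin n) F) : Matrix (Fin n) (Fin n) F) =
      trace (A : Matrix (Fin n) (Fin n) F) := by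
  rw [Units.val_mul, Units.val_mul, trace_mul_cycle, ← Units.val_mul, inv_mul_cancel,
    Units.val_one, one_mul]

theorem tr_comm (A B : GL (Fin n) F) :
    trace ((A * B : GL (Fin n) F) : Matrix (Fin n) (Fin n) F) =
      trace ((B * A : GL (Fin n) F) : Matrix (Fin n) (Fin n) F) := by
  rw [Units.val_mul, Units.val_mul, trace_mul_comm]

/-- Patching over a covering family, up to multiplicativity. -/
theorem pre_patch {G : Type} [Group G] {M : Subgroup G} (hM : M.Normal) {ι : Type} (i₀ : ι)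
    {H : ι → Subgroup G} (hMH : ∀ i, M ≤ H i) (hcov : ∀ g, ∃ i, ∃ τ, τ * g * τ⁻¹ ∈ H i)
    (r : ∀ i, H i →* GL (Fin n) F)
    (ht : ∀ i j g τ (h1 : g ∈ H i) (h2 : τ * g * τ⁻¹ ∈ H j),
      trace (r i ⟨g, h1⟩ : Matrix (Fin n) (Fin n) F) =
        trace (r j ⟨τ * g * τ⁻¹, h2⟩ : Matrix (Fin n) (Fin n) F))
    (hf : Full ((r i₀).comp (Subgroup.inclusion (hMH i₀)))) :
    ∃ γ : G → GL (Fin n) F, (∀ i, ∃ X : GL (Fin n) F, ∀ h : H i, γ h = X * r i h * X⁻¹) ∧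
      ∀ g h, γ (g * h * g⁻¹) = γ g * γ h * (γ g)⁻¹ := by
  choose I τ hI using hcov
  -- the trace function
  obtain ⟨t, htd⟩ : ∃ t : G → F, ∀ g,
    t g = trace (r (I g) ⟨_, hI g⟩ : Matrix (Fin n) (Fin n) F) := ⟨_, fun _ => rfl⟩
  have ht1 : ∀ i κ g (h : κ * g * κ⁻¹ ∈ H i),
      t g = trace (r i ⟨_, h⟩ : Matrix (Fin n) (Fin n) F) := by
    intro i κ g h
    rw [htd]
    have e : (κ * (τ g)⁻¹) * (τ g * g * (τ g)⁻¹) * (κ * (τ g)⁻¹)⁻¹ = κ * g * κ⁻¹ := by group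
    have h2 : (κ * (τ g)⁻¹) * (τ g * g * (τ g)⁻¹) * (κ * (τ g)⁻¹)⁻¹ ∈ H i := by rwa [e]
    rw [ht (I g) i _ (κ * (τ g)⁻¹) (hI g) h2]
    have e2 : (⟨_, h2⟩ : H i) = ⟨_, h⟩ := Subtype.ext e
    rw [e2]
  have ht2 : ∀ i g (h : g ∈ H i), t g = trace (r i ⟨g, h⟩ : Matrix (Fin n) (Fin n) F) := by
    intro i g h
    have h1 : (1 : G) * g * 1⁻¹ ∈ H i := by simpa using h
    rw [ht1 i 1 g h1]
    have e2 : (⟨_, h1⟩ : H i) = ⟨_, h⟩ := Subtype.ext (by simp)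
    rw [e2]
  have htc : ∀ κ g, t (κ * g * κ⁻¹) = t g := by
    intro κ g
    rw [htd (κ * g * κ⁻¹)]
    have e : τ (κ * g * κ⁻¹) * (κ * g * κ⁻¹) * (τ (κ * g * κ⁻¹))⁻¹ =
      (τ (κ * g * κ⁻¹) * κ) * g * (τ (κ * g * κ⁻¹) * κ)⁻¹ := by group
    have h1 := hI (κ * g * κ⁻¹)
    have h2 : (τ (κ * g * κ⁻¹) * κ) * g * (τ (κ * g * κ⁻¹) * κ)⁻¹ ∈ H (I (κ * g * κ⁻¹)) := by
      rw [← e]
      exact h1
    rw [ht1 _ _ g h2]
    have e2 : (⟨_, h1⟩ : H (I (κ * g * κ⁻¹))) = ⟨_, h2⟩ := Subtype.ext e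
    rw [e2]
  have htc' : ∀ a b, t (a * b) = t (b * a) := by
    intro a b
    rw [← htc b (a * b)]
    congr 1
    group
  -- the representation of `M`
  obtain ⟨ρ₀, hρ₀⟩ : ∃ ρ₀ : M →* GL (Fin n) F,
    ρ₀ = (r i₀).comp (Subgroup.inclusion (hMH i₀)) := ⟨_, rfl⟩
  rw [← hρ₀] at hf
  have hρt : ∀ g (h : g ∈ M), trace (ρ₀ ⟨g, h⟩ : Matrix (Fin n) (Fin n) F) = t g := by
    intro g h
    rw [ht2 i₀ g (hMH i₀ h), hρ₀]
    rfl
  have hX : ∀ i, ∃ X : GL (Fin n) F, ∀ g (h : g ∈ M), r i ⟨g, hMH i h⟩ = X * ρ₀ ⟨g, h⟩ * X⁻¹ := by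
    intro i
    obtain ⟨X, hX⟩ := bn (ρ' := (r i).comp (Subgroup.inclusion (hMH i))) hf (fun m => by
      rw [hρt m m.2, ht2 i m (hMH i m.2)]
      rfl)
    exact ⟨X, fun g h => hX ⟨g, h⟩⟩
  choose X hX using hX
  have hY : ∀ κ : G, ∃ Y : GL (Fin n) F, ∀ g (h : g ∈ M),
      ρ₀ ⟨κ * g * κ⁻¹, hM.conj_mem _ h _⟩ = Y * ρ₀ ⟨g, h⟩ * Y⁻¹ := by
    intro κ
    let c : M →* M := (MulAut.conjNormal (H := M) κ).toMonoidHom
    have hcv : ∀ h : M, c h = ⟨κ * h * κ⁻¹, hM.conj_mem _ h.2 _⟩ := fun h =>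
      Subtype.ext (MulAut.conjNormal_apply _ _)
    obtain ⟨Y, hY⟩ := bn (ρ' := ρ₀.comp c) hf (fun m => by
      rw [MonoidHom.comp_apply, hcv, hρt m m.2, hρt (κ * m * κ⁻¹), htc])
    refine ⟨Y, fun g h => ?_⟩
    rw [← hY ⟨g, h⟩, MonoidHom.comp_apply, hcv]
  choose Y hY using hY
  -- the matrix attached to `g`
  have hex : ∀ g, ∃ A : GL (Fin n) F, ∀ m (hm : m ∈ M),
      trace ((A * ρ₀ ⟨m, hm⟩ : GL (Fin n) F) : Matrix (Fin n) (Fin n) F) = t (g * m) := by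
    intro g
    refine ⟨(Y (τ g))⁻¹ * ((X (I g))⁻¹ * r (I g) ⟨_, hI g⟩ * X (I g)) * Y (τ g),
      fun m hm => ?_⟩
    have h1 : τ g * m * (τ g)⁻¹ ∈ M := hM.conj_mem _ hm _
    have h2 : τ g * (g * m) * (τ g)⁻¹ ∈ H (I g) := by
      have e : τ g * (g * m) * (τ g)⁻¹ = (τ g * g * (τ g)⁻¹) * (τ g * m * (τ g)⁻¹) := by group
      rw [e]
      exact (H (I g)).mul_mem (hI g) (hMH _ h1)
    rw [ht1 (I g) (τ g) (g * m) h2]
    have e1 : (⟨_, h2⟩ : H (I g)) = ⟨_, hI g⟩ * ⟨_, hMH (I g) h1⟩ := Subtype.ext (by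
      change τ g * (g * m) * (τ g)⁻¹ = (τ g * g * (τ g)⁻¹) * (τ g * m * (τ g)⁻¹)
      group)
    rw [e1, map_mul, hX (I g) _ h1, hY (τ g) m hm]
    rw [← tr_conj (X (I g) * Y (τ g))]
    congr 2
    group
  choose γ hγ using hex
  have huniq : ∀ g (A : GL (Fin n) F), (∀ m (hm : m ∈ M),
      trace ((A * ρ₀ ⟨m, hm⟩ : GL (Fin n) F) : Matrix (Fin n) (Fin n) F) = t (g * m)) → γ g = A := by
    intro g A hA
    apply eq_of_trace hf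
    intro m
    rw [hγ g m m.2, hA m m.2]
  have himp : ∀ g m (hm : m ∈ M),
      ρ₀ ⟨g * m * g⁻¹, hM.conj_mem _ hm _⟩ = γ g * ρ₀ ⟨m, hm⟩ * (γ g)⁻¹ := by
    intro g m hm
    rw [eq_mul_inv_iff_mul_eq]
    apply eq_of_trace hf
    rintro ⟨x, hx⟩
    have h1 : g * m * g⁻¹ ∈ M := hM.conj_mem _ hm _
    have e1 : ρ₀ ⟨g * m * g⁻¹, h1⟩ * γ g * ρ₀ ⟨x, hx⟩ =
      ρ₀ ⟨g * m * g⁻¹, h1⟩ * (γ g * ρ₀ ⟨x, hx⟩) := mul_assoc _ _ _
    have e4 : γ g * ρ₀ ⟨x, hx⟩ * ρ₀ ⟨g * m * g⁻¹, h1⟩ =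
        γ g * ρ₀ ⟨x * (g * m * g⁻¹), M.mul_mem hx h1⟩ := by
      rw [mul_assoc, ← map_mul]
      rfl
    have e5 : γ g * ρ₀ ⟨m, hm⟩ * ρ₀ ⟨x, hx⟩ = γ g * ρ₀ ⟨m * x, M.mul_mem hm hx⟩ := by
      rw [mul_assoc, ← map_mul]
      rfl
    rw [e1, tr_comm, e4, e5, hγ g _ (M.mul_mem hx h1), hγ g _ (M.mul_mem hm hx)]
    rw [← htc (g⁻¹), ← htc x (g * (m * x))]
    congr 1
    group
  refine ⟨γ, fun i => ⟨(X i)⁻¹, ?_⟩, ?_⟩
  · rintro ⟨h, hh⟩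
    apply huniq
    intro m hm
    have e1 : h * m ∈ H i := (H i).mul_mem hh (hMH i hm)
    have e2 : (⟨h * m, e1⟩ : H i) = ⟨h, hh⟩ * ⟨m, hMH i hm⟩ := rfl
    rw [ht2 i _ e1, e2, map_mul, hX i m hm, ← tr_conj (X i)]
    congr 2
    group
  · intro g h
    apply huniq
    intro m hm
    have h1 : g⁻¹ * m * g ∈ M := by
      have := hM.conj_mem _ hm g⁻¹
      rwa [inv_inv] at this
    have h2 := himp g _ h1
    have e1 : (⟨g * (g⁻¹ * m * g) * g⁻¹, hM.conj_mem _ h1 _⟩ : M) = ⟨m, hm⟩ :=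
      Subtype.ext (by group)
    rw [e1] at h2
    rw [h2]
    have e2 : γ g * γ h * (γ g)⁻¹ * (γ g * ρ₀ ⟨g⁻¹ * m * g, h1⟩ * (γ g)⁻¹) =
      γ g * (γ h * ρ₀ ⟨g⁻¹ * m * g, h1⟩) * (γ g)⁻¹ := by group
    rw [e2, tr_conj, hγ h _ h1, ← htc g]
    congr 1
    group

/-- Patching over a covering family of subgroups of coprime indices. -/
theorem patch_cov {G : Type} [Group G] {M : Subgroup G} (hM : M.Normal) {ι : Type} (i₀ : ι)
    {H : ι → Subgroup G} (hMH : ∀ i, M ≤ H i) (hcov : ∀ g, ∃ i, ∃ τ, τ * g * τ⁻¹ ∈ H i)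
    (hfin : ∀ i, (H i).FiniteIndex) (hgcd : ∀ d : ℕ, (∀ i, d ∣ (H i).index) → d = 1)
    (r : ∀ i, H i →* GL (Fin n) F)
    (ht : ∀ i j g τ (h1 : g ∈ H i) (h2 : τ * g * τ⁻¹ ∈ H j),
      trace (r i ⟨g, h1⟩ : Matrix (Fin n) (Fin n) F) =
        trace (r j ⟨τ * g * τ⁻¹, h2⟩ : Matrix (Fin n) (Fin n) F))
    (hf : Full ((r i₀).comp (Subgroup.inclusion (hMH i₀)))) :
    ∃ γ : G →* GL (Fin n) F, (∀ h : H i₀, γ h = r i₀ h) ∧
      ∀ i, ∃ X : GL (Fin n) F, ∀ h : H i, γ h = X * r i h * X⁻¹ := by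
  obtain ⟨γ, hγ1, hγ2⟩ := pre_patch hM i₀ hMH hcov r ht hf
  have hs : ∀ i, ∀ a ∈ H i, ∀ b ∈ H i, γ (a * b) = γ a * γ b := by
    intro i a ha b hb
    obtain ⟨X, hX⟩ := hγ1 i
    have h1 := hX ⟨a, ha⟩
    have h2 := hX ⟨b, hb⟩
    have h3 := hX (⟨a, ha⟩ * ⟨b, hb⟩)
    rw [map_mul] at h3
    change γ a = _ at h1
    change γ b = _ at h2
    change γ (a * b) = _ at h3
    rw [h1, h2, h3]
    group
  have hmul : ∀ a b, γ (a * b) = γ a * γ b := fun a b =>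
    rigid_of_gcd hcov hs hγ2 hfin hgcd a b
  obtain ⟨X₀, hX₀⟩ := hγ1 i₀
  refine ⟨(MulAut.conj X₀⁻¹).toMonoidHom.comp (MonoidHom.mk' γ hmul), fun h => ?_, fun i => ?_⟩
  · change X₀⁻¹ * γ h * X₀⁻¹⁻¹ = _
    rw [hX₀]
    group
  · obtain ⟨X, hX⟩ := hγ1 i
    refine ⟨X₀⁻¹ * X, fun h => ?_⟩
    change X₀⁻¹ * γ h * X₀⁻¹⁻¹ = _
    rw [hX]
    group

end Pool.Agent.W2helper17.PF
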