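import Pool.Agent.W2helper17.PF.Alg
import Pool.Agent.W401.Cheb.AbsDefs

/-!
# Patching: definitions
-/

set_option autoImplicit false

namespace Pool.Agent.W2helper17.PF

open NumberField IsDedekindDomain Matrix
open Pool.Agent.W401.Cheb

/-- The matrices `ρ σ` with `σ ∈ H ∩ M` span the ring of all matrices. By Burnside's theorem this says
that the restriction of `ρ` to `H ∩ M` is absolutely irreducible. -/
def FullOn {F : Type} [Field F] {n : ℕ} {G : Type} [Group G] (M : Subgroup G) {H : Subgroup G}
    (ρ : H →* GL (Fin n) F) : Prop :=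
  Submodule.span F {A : Matrix (Fin n) (Fin n) F |
    ∃ σ : H, (σ : G) ∈ M ∧ A = (ρ σ : Matrix (Fin n) (Fin n) F)} = ⊤

variable {K : Type} [Field K] [NumberField K] {F : Type} [Field F] [TopologicalSpace F] {n : ℕ}

/-- `ρ` is a continuous representation of an open subgroup `H = G_L` of `G_K`, and for `v ∉ T` every
Frobenius element of `G_K` at `v` which lies in `G_L` has the characteristic polynomial `P v`. (These
elements are the Frobenius elements of `G_L` at the primes of `L` above `v` of residue degree one.) -/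
structure Attached (T : Set (HeightOneSpectrum (𝓞 K))) (P : HeightOneSpectrum (𝓞 K) → Polynomial F)
    {H : Subgroup (GK K)} (ρ : H →* GL (Fin n) F) : Prop where
  cont : Continuous ρ
  frob : ∀ v ∉ T, ∀ σ : H, IsFrob v (σ : GK K) → (ρ σ : Matrix (Fin n) (Fin n) F).charpoly = P v

/-- `ρ` is a continuous representation of `G_K`, and for `v ∉ T` every Frobenius element at `v` has the
characteristic polynomial `P v`. -/
structure AttachedK (T : Set (HeightOneSpectrum (𝓞 K)))
    (P : HeightOneSpectrum (𝓞 K) → Polynomial F) (ρ : GK K →* GL (Fin n) F) : Prop where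
  cont : Continuous ρ
  frob : ∀ v ∉ T, ∀ σ : GK K, IsFrob v σ → (ρ σ : Matrix (Fin n) (Fin n) F).charpoly = P v

/-- `ρ` patches the representation `ρ'` of `G_{K'}` and the representations `r i` of `G_{L_i}`. -/
structure Patches (T : Set (HeightOneSpectrum (𝓞 K)))
    (P : HeightOneSpectrum (𝓞 K) → Polynomial F) {H' : Subgroup (GK K)} (ρ' : H' →* GL (Fin n) F)
    {ι : Type} {H : ι → Subgroup (GK K)} (r : ∀ i, H i →* GL (Fin n) F)
    (ρ : GK K →* GL (Fin n) F) : Prop where
  /-- continuous, with the characteristic polynomials `P v` at all Frobenius elements at `v ∉ T` -/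
  att : AttachedK T P ρ
  /-- `ρ` is absolutely irreducible -/
  irr : Full ρ
  /-- `ρ'` is the restriction of `ρ` -/
  res' : ∀ h : H', ρ h = ρ' h
  /-- `r i` is equivalent to the restriction of `ρ` -/
  res : ∀ i, ∃ X : GL (Fin n) F, ∀ h : H i, ρ h = X * r i h * X⁻¹
  /-- if `ρ'` and all `r i` are trivial on the inertia groups at `v`, so is `ρ` -/
  unr : ∀ v : HeightOneSpectrum (𝓞 K), (∀ σ : H', IsInert v (σ : GK K) → ρ' σ = 1) →
    (∀ i, ∀ σ : H i, IsInert v (σ : GK K) → r i σ = 1) → ∀ σ : GK K, IsInert v σ → ρ σ = 1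
  /-- uniqueness -/
  uniq : ∀ ρ₂ : GK K →* GL (Fin n) F, AttachedK T P ρ₂ →
    ∃ X : GL (Fin n) F, ∀ g, ρ₂ g = X * ρ g * X⁻¹

/-- The representation of `G_{K'}` and the representations of the `G_{L_i}` patch: if `ρ'` is attached
to `P` over `K'`, if `r i` is attached to `P` over `L i` for all `i`, and if `ρ'` is absolutely
irreducible on `G_{BK'} = G_B ∩ G_{K'}`, then there is a representation `ρ` of `G_K` attached to `P`;
it is absolutely irreducible, it restricts to `ρ'` and up to conjugation to the `r i`, it is unramified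
wherever `ρ'` and all `r i` are, and it is unique up to conjugation. -/
def Patch (K : Type) [Field K] [NumberField K] (K' B : IntermediateField K (AlgebraicClosure K))
    {ι : Type} (L : ι → IntermediateField K (AlgebraicClosure K)) : Prop :=
  ∀ (F : Type) [Field F] [TopologicalSpace F] [IsTopologicalRing F] [T2Space F] (n : ℕ)
    (T : Set (HeightOneSpectrum (𝓞 K))) (P : HeightOneSpectrum (𝓞 K) → Polynomial F), T.Finite →
    ∀ (ρ' : K'.fixingSubgroup →* GL (Fin n) F) (r : ∀ i, (L i).fixingSubgroup →* GL (Fin n) F),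
      Attached T P ρ' → (∀ i, Attached T P (r i)) → FullOn B.fixingSubgroup ρ' →
      ∃ ρ : GK K →* GL (Fin n) F, Patches T P ρ' r ρ

end Pool.Agent.W2helper17.PF
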