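import Pool.Agent.W2helper17.PF.Final

/-!
# Patching: extensions with group `(Z/p)²`
-/

set_option autoImplicit false

namespace Pool.Agent.W2helper17.PF

open NumberField IsDedekindDomain Matrix Topology
open Pool.Agent.W401.Cheb

variable (K : Type) [Field K] [NumberField K]

/-- In a Galois extension `B` of degree `p²` whose group has exponent `p`, every element of `G_K` fixes
a subfield of degree `p`. -/
theorem cov_pp (p : ℕ) [Fact p.Prime] (B : IntermediateField K (AlgebraicClosure K)) [Normal K B]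
    (hB : Module.finrank K B = p ^ 2) (hp : ∀ σ : GK K, σ ^ p ∈ B.fixingSubgroup) (σ : GK K) :
    ∃ L : IntermediateField K (AlgebraicClosure K), L ≤ B ∧ Module.finrank K L = p ∧
      σ ∈ L.fixingSubgroup := by
  have hpp : p.Prime := Fact.out
  haveI : FiniteDimensional K B := Module.finite_of_finrank_pos (by rw [hB]; exact pow_pos hpp.pos 2)
  haveI : IsGalois K B := ⟨⟩
  have hidx : B.fixingSubgroup.index = p ^ 2 := by
    rw [← IntermediateField.finrank_eq_fixingSubgroup_index, hB]
  let Q := GK K ⧸ B.fixingSubgroup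
  have hQ : Nat.card Q = p ^ 2 := hidx
  haveI : Finite Q := Nat.finite_of_card_ne_zero (by rw [hQ]; exact (pow_pos hpp.pos 2).ne')
  have h1 : ((σ : GK K) : Q) ^ p = 1 := by
    rw [← QuotientGroup.mk_pow, QuotientGroup.eq_one_iff]
    exact hp σ
  obtain ⟨k, hk, hk'⟩ := (Nat.dvd_prime_pow hpp).1
    (show orderOf ((σ : GK K) : Q) ∣ p ^ 1 by rw [pow_one]; exact orderOf_dvd_of_pow_eq_one h1)
  obtain ⟨J, hJ, hσJ⟩ := Sylow.exists_subgroup_card_pow_prime_le (G := Q) (m := 1) p
    (by rw [hQ]; exact pow_dvd_pow p (by norm_num)) (Subgroup.zpowers ((σ : GK K) : Q))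
    (by rw [Nat.card_zpowers]; exact hk') hk
  rw [pow_one] at hJ
  obtain ⟨M, hM⟩ : ∃ M : Subgroup (GK K), M = J.comap (QuotientGroup.mk' B.fixingSubgroup) :=
    ⟨_, rfl⟩
  have hBM : B.fixingSubgroup ≤ M := by
    intro g hg
    rw [hM, Subgroup.mem_comap]
    have : (QuotientGroup.mk' B.fixingSubgroup) g = 1 := (QuotientGroup.eq_one_iff g).2 hg
    rw [this]
    exact J.one_mem
  have hMo : IsOpen (M : Set (GK K)) := Subgroup.isOpen_mono hBM B.fixingSubgroup_isOpen
  have hMc := Subgroup.isClosed_of_isOpen _ hMo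
  have h2 : (IntermediateField.fixedField M).fixingSubgroup = M :=
    InfiniteGalois.fixingSubgroup_fixedField (⟨M, hMc⟩ : ClosedSubgroup (GK K))
  refine ⟨IntermediateField.fixedField M, ?_, ?_, ?_⟩
  · conv_rhs => rw [← InfiniteGalois.fixedField_fixingSubgroup B]
    exact IntermediateField.fixedField_antitone hBM
  · rw [IntermediateField.finrank_eq_fixingSubgroup_index, h2, hM,
      Subgroup.index_comap_of_surjective _ (QuotientGroup.mk'_surjective _)]
    have h3 := J.card_mul_index
    rw [hJ, hQ, pow_two] at h3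
    exact Nat.eq_of_mul_eq_mul_left hpp.pos h3
  · rw [h2, hM, Subgroup.mem_comap]
    exact hσJ (Subgroup.mem_zpowers _)

theorem patch_pp (p : ℕ) (hpp : p.Prime) (K' B : IntermediateField K (AlgebraicClosure K))
    [FiniteDimensional K K'] [Normal K K'] [Normal K B]
    (hB : Module.finrank K B = p ^ 2) (hp : ∀ σ : GK K, σ ^ p ∈ B.fixingSubgroup)
    (hBK : B ⊓ K' = ⊥) :
    Patch K K' B (fun L : {L : IntermediateField K (AlgebraicClosure K) //
      L ≤ B ∧ Module.finrank K L = p} => (L : IntermediateField K (AlgebraicClosure K))) := by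
  haveI : Fact p.Prime := ⟨hpp⟩
  haveI : FiniteDimensional K B := Module.finite_of_finrank_pos (by rw [hB]; exact pow_pos hpp.pos 2)
  haveI : Nonempty {L : IntermediateField K (AlgebraicClosure K) //
      L ≤ B ∧ Module.finrank K L = p} := by
    obtain ⟨L, h1, h2, -⟩ := cov_pp K p B hB hp 1
    exact ⟨⟨L, h1, h2⟩⟩
  refine patch_fields K K' B hBK _ (fun L => L.2.1) fun σ => ?_
  obtain ⟨L, h1, h2, h3⟩ := cov_pp K p B hB hp σ
  exact Or.inr ⟨⟨L, h1, h2⟩, 1, by simpa using h3⟩

end Pool.Agent.W2helper17.PF
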