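import Pool.Agent.W2helper17.PF.Main

/-!
# Patching: fields
-/

set_option autoImplicit false

namespace Pool.Agent.W2helper17.PF

open NumberField IsDedekindDomain Matrix Topology
open Pool.Agent.W401.Cheb

/-! ### groups -/

theorem prod_of_odd {G : Type} [Group G] {H H' : Subgroup G} (h2 : H'.index = 2)
    (hodd : Odd H.index) (g : G) : ∃ a ∈ H, ∃ h ∈ H', g = a * h := by
  have hne : ¬ H ≤ H' := by
    intro h
    have h1 := Subgroup.index_dvd_of_le h
    rw [h2] at h1
    exact (Nat.not_even_iff_odd.2 hodd) (even_iff_two_dvd.2 h1)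
  obtain ⟨a₀, ha₀, ha₀'⟩ := Set.not_subset.1 hne
  by_cases hg : g ∈ H'
  · exact ⟨1, H.one_mem, g, hg, (one_mul g).symm⟩
  · refine ⟨a₀, ha₀, a₀⁻¹ * g, ?_, by group⟩
    rw [Subgroup.mul_mem_iff_of_index_two h2, H'.inv_mem_iff]
    exact ⟨fun h => absurd h ha₀', fun h => absurd h hg⟩

theorem cov_of_odd {G : Type} [Group G] {H H' : Subgroup G} 
    (hodd : Odd H.index) (h : ∀ g ∉ H', g * g ∈ H.normalCore) (g : G) :
    g ∈ H' ∨ ∃ τ, τ * g * τ⁻¹ ∈ H := by
  classical
  by_cases hg : g ∈ H'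
  · exact Or.inl hg
  right
  have hidx : H.index ≠ 0 := by
    rintro h0
    rw [h0] at hodd
    exact absurd hodd (by decide)
  haveI : Finite (G ⧸ H) := Nat.finite_of_card_ne_zero hidx
  haveI := Fintype.ofFinite (G ⧸ H)
  have h1 := h g hg
  rw [Subgroup.normalCore_eq_ker, MonoidHom.mem_ker, map_mul, ← pow_two] at h1
  have hc : ¬ 2 ∣ Fintype.card (G ⧸ H) := by
    rw [← Nat.card_eq_fintype_card, ← Subgroup.index, ← even_iff_two_dvd, Nat.not_even_iff_odd]
    exact hodd
  obtain ⟨x, hx⟩ := Equiv.Perm.exists_fixed_point_of_prime (p := 2) (n := 1) hc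
    (σ := MulAction.toPermHom G (G ⧸ H) g) (by rw [pow_one]; exact h1)
  induction x using QuotientGroup.induction_on with
  | H t =>
    refine ⟨t⁻¹, ?_⟩
    rw [inv_inv]
    have h2 : ((g * t : G) : G ⧸ H) = (t : G ⧸ H) := hx
    rw [eq_comm, QuotientGroup.eq] at h2
    rwa [mul_assoc]

theorem perm3 (s : Equiv.Perm (Fin 3)) : s ^ 2 = 1 ∨ s ^ 3 = 1 := by
  revert s
  decide

theorem sq_of_cubic {G : Type} [Group G] {H H' : Subgroup G} (h2 : H'.index = 2)
    (h3 : H.index = 3) (hc : H.normalCore ≤ H') (g : G) (hg : g ∉ H') :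
    g * g ∈ H.normalCore := by
  have hidx : Nat.card (G ⧸ H) = 3 := h3
  haveI : Finite (G ⧸ H) := Nat.finite_of_card_ne_zero (by rw [hidx]; decide)
  let e : G ⧸ H ≃ Fin 3 := Finite.equivFinOfCardEq hidx
  let s := MulAction.toPermHom G (G ⧸ H) g
  have key : s ^ 2 = 1 ∨ s ^ 3 = 1 := by
    rcases perm3 (e.permCongrHom s) with h | h
    · left
      apply e.permCongrHom.injective
      rw [map_pow, h, map_one]
    · right
      apply e.permCongrHom.injective
      rw [map_pow, h, map_one]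
  rw [Subgroup.normalCore_eq_ker, MonoidHom.mem_ker, map_mul, ← pow_two]
  rcases key with h | h
  · exact h
  · exfalso
    have h4 : g ^ 3 ∈ H' := by
      apply hc
      rw [Subgroup.normalCore_eq_ker, MonoidHom.mem_ker, map_pow]
      exact h
    have h5 := Subgroup.sq_mem_of_index_two h2 g
    apply hg
    have h6 : g = g ^ 3 * (g ^ 2)⁻¹ := by group
    rw [h6]
    exact H'.mul_mem h4 (H'.inv_mem h5)

/-- covering by two subgroups -/
theorem cov_free {G : Type} [Group G] {H H₂ : Subgroup G} (p k : ℕ) [Fact p.Prime]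
    (hp : ¬ p ∣ H₂.index) (hc : H.normalCore ≤ H₂)
    (hfree : ∀ s : Equiv.Perm (G ⧸ H), (∀ x, s x ≠ x) → s ^ (p ^ k) = 1) (g : G) :
    (∃ τ, τ * g * τ⁻¹ ∈ H) ∨ ∃ τ, τ * g * τ⁻¹ ∈ H₂ := by
  classical
  have key : ∀ (J : Subgroup G) (x : G ⧸ J), MulAction.toPermHom G (G ⧸ J) g x = x →
      ∃ τ, τ * g * τ⁻¹ ∈ J := by
    intro J x hx
    induction x using QuotientGroup.induction_on with
    | H t =>
      refine ⟨t⁻¹, ?_⟩
      rw [inv_inv]
      have h2 : ((g * t : G) : G ⧸ J) = (t : G ⧸ J) := hx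
      rw [eq_comm, QuotientGroup.eq] at h2
      rwa [mul_assoc]
  by_cases hfix : ∃ x, MulAction.toPermHom G (G ⧸ H) g x = x
  · obtain ⟨x, hx⟩ := hfix
    exact Or.inl (key H x hx)
  right
  push Not at hfix
  have h1 := hfree _ hfix
  have hidx : H₂.index ≠ 0 := by
    intro h0
    rw [h0] at hp
    exact hp (dvd_zero p)
  have : Finite (G ⧸ H₂) := Nat.finite_of_card_ne_zero hidx
  have := Fintype.ofFinite (G ⧸ H₂)
  have h2 : g ^ (p ^ k) ∈ H.normalCore := by
    rw [Subgroup.normalCore_eq_ker, MonoidHom.mem_ker, map_pow]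
    exact h1
  have h3 : g ^ (p ^ k) ∈ H₂.normalCore := Subgroup.normal_le_normalCore.2 hc h2
  rw [Subgroup.normalCore_eq_ker, MonoidHom.mem_ker, map_pow] at h3
  have hc' : ¬ p ∣ Fintype.card (G ⧸ H₂) := by
    rw [← Nat.card_eq_fintype_card, ← Subgroup.index]
    exact hp
  obtain ⟨x, hx⟩ := Equiv.Perm.exists_fixed_point_of_prime (p := p) (n := k) hc'
    (σ := MulAction.toPermHom G (G ⧸ H₂) g) h3
  exact key H₂ x hx

set_option maxRecDepth 100000 in
theorem perm4' : ∀ s : Equiv.Perm (Fin 4), (∀ x, s x ≠ x) → ∀ x, s (s (s (s x))) = x := by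
  decide

theorem perm4 (s : Equiv.Perm (Fin 4)) (h : ∀ x, s x ≠ x) : s ^ (2 ^ 2) = 1 := by
  ext1 x
  have : s ^ (2 ^ 2) = s * (s * (s * s)) := by
    norm_num
    rw [pow_succ, pow_succ, pow_two]
    simp only [mul_assoc]
  rw [this]
  exact perm4' s h x

theorem cov_quartic {G : Type} [Group G] {H H₂ : Subgroup G} (h4 : H.index = 4)
    (h3 : H₂.index = 3) (hc : H.normalCore ≤ H₂) (g : G) :
    (∃ τ, τ * g * τ⁻¹ ∈ H) ∨ ∃ τ, τ * g * τ⁻¹ ∈ H₂ := by
  refine cov_free 2 2 (by rw [h3]; decide) hc (fun s hs => ?_) g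
  have hidx : Nat.card (G ⧸ H) = 4 := h4
  have : Finite (G ⧸ H) := Nat.finite_of_card_ne_zero (by rw [hidx]; decide)
  let e : G ⧸ H ≃ Fin 4 := Finite.equivFinOfCardEq hidx
  apply e.permCongrHom.injective
  rw [map_pow, map_one]
  apply perm4
  intro x hx
  apply hs (e.symm x)
  have h1 : e (s (e.symm x)) = x := hx
  exact (e.symm_apply_eq.2 h1.symm).symm

/-! ### fields -/

section fields
variable {K : Type} [Field K] [NumberField K]

theorem prod_of_inf (B K' : IntermediateField K (AlgebraicClosure K)) [FiniteDimensional K B]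
    [Normal K K'] (h : B ⊓ K' = ⊥) (g : GK K) :
    ∃ a ∈ B.fixingSubgroup, ∃ h ∈ K'.fixingSubgroup, g = a * h := by
  haveI : IsGalois K K' := ⟨⟩
  have hBo : IsOpen (B.fixingSubgroup : Set (GK K)) := B.fixingSubgroup_isOpen
  have hJo : IsOpen ((B.fixingSubgroup ⊔ K'.fixingSubgroup : Subgroup (GK K)) : Set (GK K)) :=
    Subgroup.isOpen_mono le_sup_left hBo
  have hJc := Subgroup.isClosed_of_isOpen _ hJo
  have h1 := InfiniteGalois.fixingSubgroup_fixedField
    (⟨B.fixingSubgroup ⊔ K'.fixingSubgroup, hJc⟩ : ClosedSubgroup (GK K))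
  have h2 : IntermediateField.fixedField
      (B.fixingSubgroup ⊔ K'.fixingSubgroup : Subgroup (GK K)) = ⊥ := by
    rw [eq_bot_iff, ← h]
    apply le_inf
    · conv_rhs => rw [← InfiniteGalois.fixedField_fixingSubgroup B]
      exact IntermediateField.fixedField_antitone le_sup_left
    · conv_rhs => rw [← InfiniteGalois.fixedField_fixingSubgroup K']
      exact IntermediateField.fixedField_antitone le_sup_right
  have h3 : (B.fixingSubgroup ⊔ K'.fixingSubgroup : Subgroup (GK K)) = ⊤ := by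
    have h4 : (IntermediateField.fixedField
      (B.fixingSubgroup ⊔ K'.fixingSubgroup : Subgroup (GK K))).fixingSubgroup =
        (B.fixingSubgroup ⊔ K'.fixingSubgroup : Subgroup (GK K)) := h1
    rw [← h4, h2, IntermediateField.fixingSubgroup_bot]
  have h5 : g ∈ ((B.fixingSubgroup ⊔ K'.fixingSubgroup : Subgroup (GK K)) : Set (GK K)) := by
    rw [h3]
    exact Subgroup.mem_top g
  rw [Subgroup.mul_normal] at h5
  obtain ⟨a, ha, b, hb, e⟩ := h5
  exact ⟨a, ha, b, hb, e.symm⟩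

theorem core_le (L : IntermediateField K (AlgebraicClosure K)) :
    L.fixingSubgroup.normalCore ≤
      (IntermediateField.normalClosure K L (AlgebraicClosure K)).fixingSubgroup := by
  rw [← IntermediateField.le_iff_le, IntermediateField.normalClosure_def'']
  apply iSup_le
  intro f x hx
  obtain ⟨y, hy, rfl⟩ := hx
  rw [IntermediateField.mem_fixedField_iff]
  intro g hg
  have h1 : f⁻¹ * g * f⁻¹⁻¹ ∈ L.fixingSubgroup := hg f⁻¹
  rw [inv_inv, IntermediateField.mem_fixingSubgroup_iff] at h1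
  have h2 := h1 y hy
  have h3 : f ((f⁻¹ * g * f) y) = f y := by rw [h2]
  change f (f.symm (g (f y))) = f y at h3
  rwa [AlgEquiv.apply_symm_apply] at h3

end fields

end Pool.Agent.W2helper17.PF
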