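import Pool.Agent.W2helper17.PF.Fields

/-!
# Patching: final forms
-/

set_option autoImplicit false

namespace Pool.Agent.W2helper17.PF

open NumberField IsDedekindDomain Matrix Topology
open Pool.Agent.W401.Cheb

theorem full_of_fullOn {F : Type} [Field F] {n : ℕ} {G : Type} [Group G] {M H : Subgroup G}
    {ρ : H →* GL (Fin n) F} (h : FullOn M ρ) :
    Full (ρ.comp (Subgroup.inclusion (inf_le_right : M ⊓ H ≤ H))) := by
  unfold Full
  rw [eq_top_iff, ← show _ = ⊤ from h]
  apply Submodule.span_mono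
  rintro _ ⟨σ, hσ, rfl⟩
  exact ⟨⟨σ, hσ, σ.2⟩, rfl⟩

variable (K : Type) [Field K] [NumberField K]

theorem patch_fields (K' B : IntermediateField K (AlgebraicClosure K))
    [FiniteDimensional K K'] [Normal K K'] [FiniteDimensional K B] (hBK : B ⊓ K' = ⊥)
    {ι : Type} [Nonempty ι] (L : ι → IntermediateField K (AlgebraicClosure K))
    (hL : ∀ i, L i ≤ B)
    (hcov : ∀ σ : GK K, σ ∈ K'.fixingSubgroup ∨
      ∃ i, ∃ τ : GK K, τ * σ * τ⁻¹ ∈ (L i).fixingSubgroup) : Patch K K' B L := by
  intro F _ _ _ _ n T P hT ρ' r hρ' hr hf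
  haveI : IsGalois K K' := ⟨⟩
  have hN : ∀ i, B.fixingSubgroup ≤ (L i).fixingSubgroup := fun i =>
    IntermediateField.fixingSubgroup_le (hL i)
  exact patch_gal (N := B.fixingSubgroup) hT inferInstance K'.fixingSubgroup_isOpen
    (prod_of_inf B K' hBK) (Classical.arbitrary ι)
    (fun i => Subgroup.isOpen_mono (hN i) B.fixingSubgroup_isOpen) hN hcov hρ' hr
    (full_of_fullOn hf)

theorem patch_core (K' L : IntermediateField K (AlgebraicClosure K))
    (h2 : Module.finrank K K' = 2) (hodd : Odd (Module.finrank K L))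
    (hsq : ∀ σ : GK K, σ ∉ K'.fixingSubgroup → σ * σ ∈ L.fixingSubgroup.normalCore) :
    Patch K K' L (fun _ : Unit => L) := by
  intro F _ _ _ _ n T P hT ρ' r hρ' hr hf
  haveI : FiniteDimensional K K' := Module.finite_of_finrank_pos (by rw [h2]; decide)
  haveI : FiniteDimensional K L := Module.finite_of_finrank_pos hodd.pos
  have h2' : K'.fixingSubgroup.index = 2 := by
    rw [← IntermediateField.finrank_eq_fixingSubgroup_index, h2]
  have hodd' : Odd L.fixingSubgroup.index := by
    rwa [← IntermediateField.finrank_eq_fixingSubgroup_index]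
  have hn : K'.fixingSubgroup.Normal := Subgroup.normal_of_index_eq_two h2'
  refine patch_gal (N := L.fixingSubgroup) (ι := Unit) (H := fun _ => L.fixingSubgroup) hT hn
    K'.fixingSubgroup_isOpen (prod_of_odd h2' hodd') () (fun _ => L.fixingSubgroup_isOpen)
    (fun _ => le_rfl) (fun g => ?_) hρ' hr (full_of_fullOn hf)
  rcases cov_of_odd hodd' hsq g with h | h
  · exact Or.inl h
  · exact Or.inr ⟨(), h⟩

theorem patch_dihedral (K' L E : IntermediateField K (AlgebraicClosure K)) [Normal K E]
    (hLE : L ≤ E) (h2 : Module.finrank K K' = 2) (hodd : Odd (Module.finrank K L))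
    (hsq : ∀ σ : GK K, σ ∉ K'.fixingSubgroup → σ * σ ∈ E.fixingSubgroup) :
    Patch K K' L (fun _ : Unit => L) := by
  haveI : IsGalois K E := ⟨⟩
  refine patch_core K K' L h2 hodd fun σ hσ => ?_
  exact Subgroup.normal_le_normalCore.2 (IntermediateField.fixingSubgroup_le hLE) (hsq σ hσ)

theorem full_of_fullOn' {F : Type} [Field F] {n : ℕ} {G : Type} [Group G] {M H : Subgroup G}
    {ρ : H →* GL (Fin n) F} (hMH : M ≤ H) (h : FullOn M ρ) :
    Full (ρ.comp (Subgroup.inclusion hMH)) := by
  unfold Full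
  rw [eq_top_iff, ← show _ = ⊤ from h]
  apply Submodule.span_mono
  rintro _ ⟨σ, hσ, rfl⟩
  exact ⟨⟨σ, hσ⟩, rfl⟩

theorem patch_coprime (K' E : IntermediateField K (AlgebraicClosure K)) [FiniteDimensional K E]
    [Normal K E] {ι : Type} (L : ι → IntermediateField K (AlgebraicClosure K)) (hK' : K' ≤ E)
    (hL : ∀ i, L i ≤ E)
    (hcov : ∀ σ : GK K, (∃ τ : GK K, τ * σ * τ⁻¹ ∈ K'.fixingSubgroup) ∨
      ∃ i, ∃ τ : GK K, τ * σ * τ⁻¹ ∈ (L i).fixingSubgroup)
    (hgcd : ∀ d : ℕ, d ∣ Module.finrank K K' → (∀ i, d ∣ Module.finrank K (L i)) → d = 1) :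
    Patch K K' E L := by
  intro F _ _ _ _ n T P hT ρ' r hρ' hr hf
  haveI : IsGalois K E := ⟨⟩
  have hM' : E.fixingSubgroup ≤ K'.fixingSubgroup := IntermediateField.fixingSubgroup_le hK'
  have hM : ∀ i, E.fixingSubgroup ≤ (L i).fixingSubgroup := fun i =>
    IntermediateField.fixingSubgroup_le (hL i)
  refine patch_gal_cov (M := E.fixingSubgroup) hT inferInstance
    (Subgroup.isOpen_mono hM' E.fixingSubgroup_isOpen)
    (fun i => Subgroup.isOpen_mono (hM i) E.fixingSubgroup_isOpen) hM' hM hcov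
    (fun d hd hd' => hgcd d ?_ fun i => ?_) hρ' hr (full_of_fullOn' hM' hf)
  · rwa [IntermediateField.finrank_eq_fixingSubgroup_index]
  · rw [IntermediateField.finrank_eq_fixingSubgroup_index]
    exact hd' i

theorem patch_quartic (K₃ K₄ : IntermediateField K (AlgebraicClosure K))
    (h3 : Module.finrank K K₃ = 3) (h4 : Module.finrank K K₄ = 4)
    (hc : K₃ ≤ IntermediateField.normalClosure K K₄ (AlgebraicClosure K)) :
    Patch K K₄ (IntermediateField.normalClosure K K₄ (AlgebraicClosure K))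
      (fun _ : Unit => K₃) := by
  haveI : FiniteDimensional K K₄ := Module.finite_of_finrank_pos (by rw [h4]; decide)
  refine patch_coprime K K₄ _ _ (IntermediateField.le_normalClosure K₄) (fun _ => hc) ?_ ?_
  · intro σ
    rcases cov_quartic (H := K₄.fixingSubgroup) (H₂ := K₃.fixingSubgroup)
      (by rw [← IntermediateField.finrank_eq_fixingSubgroup_index, h4])
      (by rw [← IntermediateField.finrank_eq_fixingSubgroup_index, h3])
      ((core_le K₄).trans (IntermediateField.fixingSubgroup_le hc)) σ with h | h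
    · exact Or.inl h
    · exact Or.inr ⟨(), h⟩
  · intro d hd hd'
    have hd'' := hd' ()
    rw [h4] at hd
    rw [h3] at hd''
    exact Nat.dvd_one.1 ((Nat.dvd_sub hd hd''))

theorem patch_cubic (K' L : IntermediateField K (AlgebraicClosure K))
    (h2 : Module.finrank K K' = 2) (h3 : Module.finrank K L = 3)
    (hc : K' ≤ IntermediateField.normalClosure K L (AlgebraicClosure K)) :
    Patch K K' L (fun _ : Unit => L) := by
  refine patch_core K K' L h2 (by rw [h3]; decide) ?_
  intro σ hσ
  apply sq_of_cubic (H' := K'.fixingSubgroup) _ _ _ σ hσ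
  · rw [← IntermediateField.finrank_eq_fixingSubgroup_index, h2]
  · rw [← IntermediateField.finrank_eq_fixingSubgroup_index, h3]
  · exact (core_le L).trans (IntermediateField.fixingSubgroup_le hc)

end Pool.Agent.W2helper17.PF
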