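import Pool.Agent.W2helper17.PF.Stm
import Pool.Agent.W2helper17.PF.Disj

/-!
# Patching: from the working definitions to those of the statements
-/

set_option autoImplicit false

namespace Pool.Agent.W2helper17.PF.S

open NumberField IsDedekindDomain
open Pool.Agent.W401.Cheb

theorem patch_of {K : Type} [Field K] [NumberField K] {K' B : Ext K} {ι : Type} {L : ι → Ext K}
    (h : PF.Patch K K' B L) : Patch K' B L := by
  intro F _ _ _ _ n T P hT ρ' r hρ' hr hirr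
  obtain ⟨ρ, hρ⟩ := h F n T P hT ρ' r ⟨hρ'.1, fun v hv σ hσ => hρ'.2 v hv σ σ.2 hσ⟩
    (fun i => ⟨(hr i).1, fun v hv σ hσ => (hr i).2 v hv σ σ.2 hσ⟩) (by
      unfold PF.FullOn
      rw [eq_top_iff, ← show _ = ⊤ from hirr]
      apply Submodule.span_mono
      rintro _ ⟨σ, h, hB, rfl⟩
      exact ⟨⟨σ, h⟩, hB, rfl⟩)
  refine ⟨ρ, ⟨hρ.att.cont, fun v hv σ hσ => hρ.att.frob v hv σ hσ⟩, ?_, fun σ h => hρ.res' ⟨σ, h⟩,
    fun i => ?_, fun v h1 h2 σ hσ => hρ.unr v (fun σ hσ => h1 σ σ.2 hσ)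
      (fun i σ hσ => h2 i σ σ.2 hσ) σ hσ, fun ρ₂ h => ?_⟩
  · unfold IrrK Spans
    rw [eq_top_iff, ← show _ = ⊤ from hρ.irr]
    apply Submodule.span_mono
    rintro _ ⟨σ, rfl⟩
    exact ⟨σ, rfl⟩
  · obtain ⟨X, hX⟩ := hρ.res i
    exact ⟨X, fun σ h => hX ⟨σ, h⟩⟩
  · obtain ⟨X, hX⟩ := hρ.uniq ρ₂ ⟨h.1, h.2⟩
    exact ⟨X, hX⟩

end Pool.Agent.W2helper17.PF.S
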