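import Pool.Agent.W2helper17.PF.Cov
import Pool.Agent.W2helper17.PF.Defs
import Pool.Agent.Y405.ZO.Frob

/-!
# Patching: Galois groups
-/

set_option autoImplicit false

namespace Pool.Agent.W2helper17.PF

open NumberField IsDedekindDomain Matrix Topology
open Pool.Agent.W401.Cheb

section frob
variable {K : Type} [Field K] [NumberField K]

theorem smul_alg (τ : GK K) (a : 𝓞 K) :
    τ • algebraMap (𝓞 K) (𝓞 (AlgebraicClosure K)) a =
      algebraMap (𝓞 K) (𝓞 (AlgebraicClosure K)) a := by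
  apply RingOfIntegers.ext
  exact τ.commutes (a : K)

theorem inert_conj {v : HeightOneSpectrum (𝓞 K)} {σ : GK K} (τ : GK K) (h : IsInert v σ) :
    IsInert v (τ * σ * τ⁻¹) := by
  obtain ⟨Q, hQm, hQv, hQ⟩ := h
  let f : 𝓞 (AlgebraicClosure K) →+* 𝓞 (AlgebraicClosure K) :=
    MulSemiringAction.toRingHom (GK K) (𝓞 (AlgebraicClosure K)) τ⁻¹
  have hf : ∀ x, f x = τ⁻¹ • x := fun x => rfl
  have hsurj : Function.Surjective f := fun y =>
    ⟨τ • y, by rw [hf, smul_smul, inv_mul_cancel, one_smul]⟩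
  refine ⟨Q.comap f, Ideal.comap_isMaximal_of_surjective f hsurj, ?_, fun x => ?_⟩
  · rw [← hQv]
    ext a
    rw [Ideal.mem_comap, Ideal.mem_comap, Ideal.mem_comap, hf, smul_alg]
  · rw [Ideal.mem_comap, map_sub, hf, hf, smul_smul]
    have e : τ⁻¹ * (τ * σ * τ⁻¹) = σ * τ⁻¹ := by group
    rw [e, mul_smul]
    exact hQ _

theorem frob_conj {v : HeightOneSpectrum (𝓞 K)} {σ : GK K} (τ : GK K) (h : IsFrob v σ) :
    IsFrob v (τ * σ * τ⁻¹) := (Pool.Agent.W401.Frob.main K).2.2 v σ τ h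

/-- density of the Frobenius elements in an open subgroup -/
theorem eq_of_frob {F : Type} [TopologicalSpace F] [T2Space F]
    {T : Set (HeightOneSpectrum (𝓞 K))} (hT : T.Finite) {U : Subgroup (GK K)}
    (hU : IsOpen (U : Set (GK K))) {f g : U → F} (hf : Continuous f) (hg : Continuous g)
    (h : ∀ v ∉ T, ∀ σ : U, IsFrob v (σ : GK K) → f σ = g σ) (x : U) : f x = g x := by
  by_contra hx
  have hO : IsOpen ((Subtype.val '' {y : U | f y ≠ g y} : Set (GK K))) :=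
    hU.isOpenMap_subtype_val _ (isOpen_ne_fun hf hg)
  obtain ⟨v, hv, σ, hσ, hσO⟩ := Pool.Agent.Y405.ZO.frob_core K
    ((Subtype.val '' {y : U | f y ≠ g y} : Set (GK K))⁻¹) hO.inv
    ⟨(x : GK K)⁻¹, by
      rw [Set.inv_mem_inv]
      exact ⟨x, hx, rfl⟩⟩ T hT
  rw [Set.inv_mem_inv] at hσO
  obtain ⟨y, hy, rfl⟩ := hσO
  exact hy (h v hv y hσ)

end frob

variable {K : Type} [Field K] [NumberField K] {F : Type} [Field F] [TopologicalSpace F]
  [IsTopologicalRing F] [T2Space F] {n : ℕ}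

omit [T2Space F] in
theorem cont_trace {Γ : Type*} [TopologicalSpace Γ] {f : Γ → GL (Fin n) F} (hf : Continuous f) :
    Continuous fun x => trace (f x : Matrix (Fin n) (Fin n) F) :=
  (Units.continuous_val.comp hf).matrix_trace

omit [TopologicalSpace F] [IsTopologicalRing F] [T2Space F] in
theorem trace_of_charpoly {A B : Matrix (Fin n) (Fin n) F} (h : A.charpoly = B.charpoly) :
    trace A = trace B := by
  rw [trace_eq_neg_charpoly_nextCoeff, trace_eq_neg_charpoly_nextCoeff, h]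

theorem charpoly_conj {F : Type} [Field F] {n : ℕ} (X A : GL (Fin n) F) :
    ((X * A * X⁻¹ : GL (Fin n) F) : Matrix (Fin n) (Fin n) F).charpoly =
      (A : Matrix (Fin n) (Fin n) F).charpoly := by
  rw [Units.val_mul, Units.val_mul, Matrix.coe_units_inv, Matrix.charpoly_units_conj]

/-- the properties of the patched representation -/
theorem finish {T : Set (HeightOneSpectrum (𝓞 K))} (hT : T.Finite)
    {P : HeightOneSpectrum (𝓞 K) → Polynomial F} {H' : Subgroup (GK K)}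
    (hH'o : IsOpen (H' : Set (GK K))) {ι : Type} {H : ι → Subgroup (GK K)}
    (hcov : ∀ g, (∃ τ, τ * g * τ⁻¹ ∈ H') ∨ ∃ i, ∃ τ, τ * g * τ⁻¹ ∈ H i)
    {ρ' : H' →* GL (Fin n) F} {r : ∀ i, H i →* GL (Fin n) F}
    (hρ' : Attached T P ρ') (hr : ∀ i, Attached T P (r i)) {γ : GK K →* GL (Fin n) F}
    (hfull : Full γ) (hγ1 : ∀ h : H', γ h = ρ' h)
    (hγ2 : ∀ i, ∃ X : GL (Fin n) F, ∀ h : H i, γ h = X * r i h * X⁻¹) :
    Patches T P ρ' r γ := by
  have hcont : Continuous γ := by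
    apply continuous_of_continuousAt_one
    have h1 : ContinuousAt (γ ∘ (Subtype.val : H' → GK K)) 1 := by
      have : (γ ∘ (Subtype.val : H' → GK K)) = ρ' := funext hγ1
      rw [this]
      exact hρ'.cont.continuousAt
    exact hH'o.isOpenEmbedding_subtypeVal.continuousAt_iff.1 h1
  have hfrob : ∀ v ∉ T, ∀ σ : GK K, IsFrob v σ →
      (γ σ : Matrix (Fin n) (Fin n) F).charpoly = P v := by
    intro v hv σ hσ
    rcases hcov σ with ⟨τ, h⟩ | ⟨i, τ, h⟩
    · have h1 := hρ'.frob v hv ⟨_, h⟩ (frob_conj τ hσ)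
      rw [← hγ1 ⟨_, h⟩] at h1
      change (γ (τ * σ * τ⁻¹) : Matrix (Fin n) (Fin n) F).charpoly = P v at h1
      rwa [map_mul, map_mul, map_inv, charpoly_conj] at h1
    · obtain ⟨X, hX⟩ := hγ2 i
      have h1 := (hr i).frob v hv ⟨_, h⟩ (frob_conj τ hσ)
      have h2 := hX ⟨_, h⟩
      have h3 : γ σ = ((γ τ)⁻¹ * X) * r i ⟨_, h⟩ * ((γ τ)⁻¹ * X)⁻¹ := by
        have h4 : γ (τ * σ * τ⁻¹) = X * r i ⟨_, h⟩ * X⁻¹ := h2
        rw [map_mul, map_mul, map_inv] at h4
        calc γ σ = (γ τ)⁻¹ * (γ τ * γ σ * (γ τ)⁻¹) * γ τ := by group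
          _ = (γ τ)⁻¹ * (X * r i ⟨_, h⟩ * X⁻¹) * γ τ := by rw [h4]
          _ = _ := by group
      rw [h3, charpoly_conj, h1]
  refine ⟨⟨hcont, hfrob⟩, hfull, hγ1, hγ2, ?_, ?_⟩
  · intro v h1 h2 σ hσ
    rcases hcov σ with ⟨τ, h⟩ | ⟨i, τ, h⟩
    · have h4 := h1 ⟨_, h⟩ (inert_conj τ hσ)
      rw [← hγ1 ⟨_, h⟩] at h4
      change γ (τ * σ * τ⁻¹) = 1 at h4
      rw [map_mul, map_mul, map_inv] at h4
      have h5 : γ σ = (γ τ)⁻¹ * (γ τ * γ σ * (γ τ)⁻¹) * γ τ := by group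
      rw [h5, h4, mul_one, inv_mul_cancel]
    · obtain ⟨X, hX⟩ := hγ2 i
      have h3 := h2 i ⟨_, h⟩ (inert_conj τ hσ)
      have h4 : γ (τ * σ * τ⁻¹) = X * r i ⟨_, h⟩ * X⁻¹ := hX ⟨_, h⟩
      rw [h3, mul_one, mul_inv_cancel, map_mul, map_mul, map_inv] at h4
      have h5 : γ σ = (γ τ)⁻¹ * (γ τ * γ σ * (γ τ)⁻¹) * γ τ := by group
      rw [h5, h4, mul_one, inv_mul_cancel]
  · intro ρ₂ h2
    apply bn hfull
    intro g
    have key := eq_of_frob (F := F) hT (U := (⊤ : Subgroup (GK K))) isOpen_univ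
      (f := fun g => trace (γ g : Matrix (Fin n) (Fin n) F))
      (g := fun g => trace (ρ₂ g : Matrix (Fin n) (Fin n) F))
      (cont_trace (hcont.comp continuous_subtype_val))
      (cont_trace (h2.cont.comp continuous_subtype_val))
      (fun v hv σ hσ => trace_of_charpoly ((hfrob v hv σ hσ).trans (h2.frob v hv σ hσ).symm))
    exact key ⟨g, Subgroup.mem_top g⟩

/-- Patching, for open subgroups of the absolute Galois group. -/
theorem patch_gal {T : Set (HeightOneSpectrum (𝓞 K))} (hT : T.Finite)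
    {P : HeightOneSpectrum (𝓞 K) → Polynomial F} {H' N : Subgroup (GK K)} (hH' : H'.Normal)
    (hH'o : IsOpen (H' : Set (GK K))) (hNH : ∀ g, ∃ a ∈ N, ∃ h ∈ H', g = a * h)
    {ι : Type} (i₀ : ι) {H : ι → Subgroup (GK K)} (hHo : ∀ i, IsOpen (H i : Set (GK K)))
    (hN : ∀ i, N ≤ H i) (hcov : ∀ g, g ∈ H' ∨ ∃ i, ∃ τ, τ * g * τ⁻¹ ∈ H i)
    {ρ' : H' →* GL (Fin n) F} {r : ∀ i, H i →* GL (Fin n) F}
    (hρ' : Attached T P ρ') (hr : ∀ i, Attached T P (r i))
    (hf : Full (ρ'.comp (Subgroup.inclusion (inf_le_right : N ⊓ H' ≤ H')))) :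
    ∃ ρ : GK K →* GL (Fin n) F, Patches T P ρ' r ρ := by
  obtain ⟨γ, hγ1, hγ2⟩ := patch hH' hNH i₀ H hN ρ' r
    (by
      intro i g h1 h2
      have key := eq_of_frob (F := F) hT (U := H i ⊓ H') ((hHo i).inter hH'o)
        (f := fun g => trace (r i ⟨g, g.2.1⟩ : Matrix (Fin n) (Fin n) F))
        (g := fun g => trace (ρ' ⟨g, g.2.2⟩ : Matrix (Fin n) (Fin n) F))
        (cont_trace ((hr i).cont.comp (by fun_prop))) (cont_trace (hρ'.cont.comp (by fun_prop)))
        (fun v hv σ hσ => trace_of_charpoly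
          (((hr i).frob v hv ⟨σ, σ.2.1⟩ hσ).trans (hρ'.frob v hv ⟨σ, σ.2.2⟩ hσ).symm))
      exact key ⟨g, h1, h2⟩)
    (by
      intro i j g h1 h2
      have key := eq_of_frob (F := F) hT (U := H i ⊓ H j) ((hHo i).inter (hHo j))
        (f := fun g => trace (r i ⟨g, g.2.1⟩ : Matrix (Fin n) (Fin n) F))
        (g := fun g => trace (r j ⟨g, g.2.2⟩ : Matrix (Fin n) (Fin n) F))
        (cont_trace ((hr i).cont.comp (by fun_prop))) (cont_trace ((hr j).cont.comp (by fun_prop)))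
        (fun v hv σ hσ => trace_of_charpoly
          (((hr i).frob v hv ⟨σ, σ.2.1⟩ hσ).trans ((hr j).frob v hv ⟨σ, σ.2.2⟩ hσ).symm))
      exact key ⟨g, h1, h2⟩)
    (by
      intro a h
      have key := eq_of_frob (F := F) hT (U := H') hH'o
        (f := fun h : H' => trace (ρ' ⟨a * h * a⁻¹, hH'.conj_mem _ h.2 _⟩ :
          Matrix (Fin n) (Fin n) F))
        (g := fun h => trace (ρ' h : Matrix (Fin n) (Fin n) F))
        (cont_trace (hρ'.cont.comp (by fun_prop))) (cont_trace hρ'.cont)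
        (fun v hv σ hσ => trace_of_charpoly
          ((hρ'.frob v hv ⟨a * σ * a⁻¹, hH'.conj_mem _ σ.2 _⟩ (frob_conj a hσ)).trans
            (hρ'.frob v hv σ hσ).symm))
      exact key h)
    hf
  exact ⟨γ, finish hT hH'o (fun g => (hcov g).imp_left fun h => ⟨1, by simpa using h⟩) hρ' hr
    (hf.mono fun g => ⟨g, hγ1 ⟨g, g.2.2⟩⟩) hγ1 hγ2⟩

/-- Patching over a covering family of open subgroups of coprime indices. -/
theorem patch_gal_cov {T : Set (HeightOneSpectrum (𝓞 K))} (hT : T.Finite)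
    {P : HeightOneSpectrum (𝓞 K) → Polynomial F} {M : Subgroup (GK K)} (hM : M.Normal)
    {H' : Subgroup (GK K)} (hH'o : IsOpen (H' : Set (GK K))) {ι : Type}
    {H : ι → Subgroup (GK K)} (hHo : ∀ i, IsOpen (H i : Set (GK K))) (hMH' : M ≤ H')
    (hMH : ∀ i, M ≤ H i)
    (hcov : ∀ g, (∃ τ, τ * g * τ⁻¹ ∈ H') ∨ ∃ i, ∃ τ, τ * g * τ⁻¹ ∈ H i)
    (hgcd : ∀ d : ℕ, d ∣ H'.index → (∀ i, d ∣ (H i).index) → d = 1)
    {ρ' : H' →* GL (Fin n) F} {r : ∀ i, H i →* GL (Fin n) F}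
    (hρ' : Attached T P ρ') (hr : ∀ i, Attached T P (r i))
    (hf : Full (ρ'.comp (Subgroup.inclusion hMH'))) :
    ∃ ρ : GK K →* GL (Fin n) F, Patches T P ρ' r ρ := by
  let Ho : Option ι → Subgroup (GK K) := fun o => o.elim H' H
  let ro : (o : Option ι) → (↥(Ho o)) →* GL (Fin n) F := fun o =>
    match o with
    | none => ρ'
    | some i => r i
  have hatt : ∀ o, Attached T P (ro o) := by
    rintro (_ | i)
    · exact hρ'
    · exact hr i
  have hopen : ∀ o, IsOpen (Ho o : Set (GK K)) := by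
    rintro (_ | i)
    · exact hH'o
    · exact hHo i
  have hMo : ∀ o, M ≤ Ho o := by
    rintro (_ | i)
    · exact hMH'
    · exact hMH i
  have hfin : ∀ o, (Ho o).FiniteIndex := fun o => by
    haveI : Finite (GK K ⧸ Ho o) := Subgroup.quotient_finite_of_isOpen _ (hopen o)
    exact Subgroup.finiteIndex_of_finite_quotient
  obtain ⟨γ, hγ1, hγ2⟩ := patch_cov hM none (H := Ho) hMo
    (fun g => (hcov g).elim (fun h => ⟨none, h⟩) fun ⟨i, h⟩ => ⟨some i, h⟩) hfin
    (fun d hd => hgcd d (hd none) fun i => hd (some i)) ro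
    (by
      intro o o' g τ h1 h2
      have hU : IsOpen ((Ho o ⊓ (Ho o').comap (MulAut.conj τ).toMonoidHom : Subgroup (GK K)) :
          Set (GK K)) := by
        refine (hopen o).inter ((hopen o').preimage (f := fun g => τ * g * τ⁻¹) ?_)
        exact (continuous_mul_left τ).mul continuous_const
      have key := eq_of_frob (F := F) hT hU
        (f := fun g => trace (ro o ⟨g, g.2.1⟩ : Matrix (Fin n) (Fin n) F))
        (g := fun g => trace (ro o' ⟨τ * g * τ⁻¹, g.2.2⟩ : Matrix (Fin n) (Fin n) F))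
        (cont_trace ((hatt o).cont.comp (Continuous.subtype_mk continuous_subtype_val _)))
        (cont_trace ((hatt o').cont.comp (Continuous.subtype_mk
          (((continuous_mul_left τ).comp continuous_subtype_val).mul continuous_const) _)))
        (fun v hv σ hσ => trace_of_charpoly
          (((hatt o).frob v hv ⟨σ, σ.2.1⟩ hσ).trans
            ((hatt o').frob v hv ⟨τ * σ * τ⁻¹, σ.2.2⟩ (frob_conj τ hσ)).symm))
      exact key ⟨g, h1, h2⟩)
    hf
  exact ⟨γ, finish hT hH'o hcov hρ' hr (hf.mono fun g => ⟨g, hγ1 ⟨g, hMH' g.2⟩⟩) hγ1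
    fun i => hγ2 (some i)⟩

end Pool.Agent.W2helper17.PF
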