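import Pool.Agent.W2helper17.PF.Alg

/-!
# Patching: groups
-/

set_option autoImplicit false

namespace Pool.Agent.W2helper17.PF

open Matrix

/-- gluing two homomorphisms on a product of a subgroup and a normal subgroup -/
theorem glue {G A : Type*} [Group G] [Group A] {H' N : Subgroup G} (hH' : H'.Normal)
    (hNH : ∀ g, ∃ a ∈ N, ∃ h ∈ H', g = a * h)
    (α : H' →* A) (β : N →* A)
    (hag : ∀ g (h1 : g ∈ N) (h2 : g ∈ H'), β ⟨g, h1⟩ = α ⟨g, h2⟩)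
    (hc : ∀ (a : N) (h : H'),
      α ⟨(a : G) * h * (a : G)⁻¹, hH'.conj_mem _ h.2 _⟩ = β a * α h * (β a)⁻¹) :
    ∃ γ : G →* A, (∀ h : H', γ h = α h) ∧ ∀ a : N, γ a = β a := by
  choose a ha h hh e using hNH
  have key : ∀ (x : N) (y : H') (g : G), g = (x : G) * y →
      β ⟨a g, ha _⟩ * α ⟨h g, hh _⟩ = β x * α y := by
    intro x y g hg
    have e1 := e g
    have e2 : (x : G)⁻¹ * a g = y * (h g)⁻¹ := by
      rw [eq_mul_inv_iff_mul_eq, mul_assoc, ← e1, hg, inv_mul_cancel_left]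
    have h1 : (x : G)⁻¹ * a g ∈ N := N.mul_mem (N.inv_mem x.2) (ha _)
    have h2 : (x : G)⁻¹ * a g ∈ H' := by
      rw [e2]
      exact H'.mul_mem y.2 (H'.inv_mem (hh _))
    have h3 := hag _ h1 h2
    have h4 : (⟨_, h1⟩ : N) = x⁻¹ * ⟨a g, ha _⟩ := rfl
    have h5 : (⟨_, h2⟩ : H') = y * (⟨h g, hh _⟩ : H')⁻¹ := Subtype.ext e2
    rw [h4, h5, map_mul, map_mul, map_inv, map_inv, inv_mul_eq_iff_eq_mul] at h3
    rw [h3, mul_assoc, inv_mul_cancel_right]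
  refine ⟨MonoidHom.mk' (fun g => β ⟨a g, ha g⟩ * α ⟨h g, hh g⟩) ?_, ?_, ?_⟩
  · intro g1 g2
    let x1 : N := ⟨a g1, ha g1⟩
    let y1 : H' := ⟨h g1, hh g1⟩
    let x2 : N := ⟨a g2, ha g2⟩
    let y2 : H' := ⟨h g2, hh g2⟩
    have hz : (x2 : G)⁻¹ * y1 * x2 ∈ H' := by
      have := hH'.conj_mem (y1 : G) y1.2 (x2 : G)⁻¹
      rwa [inv_inv] at this
    let z : H' := ⟨(x2 : G)⁻¹ * y1 * x2, hz⟩
    have h1 : g1 * g2 = ((x1 * x2 : N) : G) * ((z * y2 : H') : G) := by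
      have e1 : g1 = (x1 : G) * y1 := e g1
      have e2 : g2 = (x2 : G) * y2 := e g2
      have e3 : ((x1 * x2 : N) : G) = (x1 : G) * x2 := rfl
      have e4 : ((z * y2 : H') : G) = ((x2 : G)⁻¹ * y1 * x2) * y2 := rfl
      rw [e1, e2, e3, e4]
      group
    have h2 := hc x2 z
    have h3 : (⟨(x2 : G) * z * (x2 : G)⁻¹, hH'.conj_mem _ z.2 _⟩ : H') = y1 := by
      apply Subtype.ext
      change (x2 : G) * ((x2 : G)⁻¹ * y1 * x2) * (x2 : G)⁻¹ = y1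
      group
    rw [h3] at h2
    change _ = (β x1 * α y1) * (β x2 * α y2)
    rw [key _ _ _ h1, map_mul, map_mul, h2]
    group
  · intro y
    have := key 1 y y (by simp)
    rw [map_one, one_mul] at this
    exact this
  · intro x
    have := key x 1 x (by simp)
    rw [map_one, mul_one] at this
    exact this

variable {F : Type} [Field F] {n : ℕ}

theorem Full.mono {Γ Γ' : Type} [Group Γ] [Group Γ'] {ρ : Γ →* GL (Fin n) F}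
    {ρ' : Γ' →* GL (Fin n) F} (hf : Full ρ) (h : ∀ g, ∃ g', ρ' g' = ρ g) : Full ρ' := by
  unfold Full at hf ⊢
  rw [eq_top_iff, ← hf]
  apply Submodule.span_mono
  rintro _ ⟨g, rfl⟩
  obtain ⟨g', hg'⟩ := h g
  exact ⟨g', congrArg (fun A : GL (Fin n) F => (A : Matrix (Fin n) (Fin n) F)) hg'⟩

/-- Patching, algebraic form. -/
theorem patch {G : Type} [Group G] {H' N : Subgroup G} (hH' : H'.Normal)
    (hNH : ∀ g, ∃ a ∈ N, ∃ h ∈ H', g = a * h) {ι : Type} (i₀ : ι) (H : ι → Subgroup G)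
    (hN : ∀ i, N ≤ H i) (ρ' : H' →* GL (Fin n) F) (r : ∀ i, H i →* GL (Fin n) F)
    (ht1 : ∀ i g (h1 : g ∈ H i) (h2 : g ∈ H'),
      trace (r i ⟨g, h1⟩ : Matrix (Fin n) (Fin n) F) =
        trace (ρ' ⟨g, h2⟩ : Matrix (Fin n) (Fin n) F))
    (ht2 : ∀ i j g (h1 : g ∈ H i) (h2 : g ∈ H j),
      trace (r i ⟨g, h1⟩ : Matrix (Fin n) (Fin n) F) =
        trace (r j ⟨g, h2⟩ : Matrix (Fin n) (Fin n) F))
    (ht3 : ∀ (a : G) (h : H'),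
      trace (ρ' ⟨a * h * a⁻¹, hH'.conj_mem _ h.2 _⟩ : Matrix (Fin n) (Fin n) F) =
        trace (ρ' h : Matrix (Fin n) (Fin n) F))
    (hf : Full (ρ'.comp (Subgroup.inclusion (inf_le_right : N ⊓ H' ≤ H')))) :
    ∃ γ : G →* GL (Fin n) F, (∀ h : H', γ h = ρ' h) ∧
      ∀ i, ∃ X : GL (Fin n) F, ∀ h : H i, γ h = X * r i h * X⁻¹ := by
  -- the restriction of `ρ'` to `N ⊓ H'`
  obtain ⟨ρM, hρM⟩ : ∃ ρM : (N ⊓ H' : Subgroup G) →* GL (Fin n) F,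
    ρM = ρ'.comp (Subgroup.inclusion (inf_le_right : N ⊓ H' ≤ H')) := ⟨_, rfl⟩
  rw [← hρM] at hf
  have hM : ∀ g (h1 : g ∈ N) (h2 : g ∈ H'), ρM ⟨g, h1, h2⟩ = ρ' ⟨g, h2⟩ := fun g h1 h2 => by
    rw [hρM]
    rfl
  obtain ⟨X₀, hX₀⟩ := bn (ρ' := (r i₀).comp (Subgroup.inclusion
      ((inf_le_left : N ⊓ H' ≤ N).trans (hN i₀)))) hf (fun h => by
    obtain ⟨g, h1, h2⟩ := h
    rw [hM g h1 h2]
    exact (ht1 i₀ g (hN i₀ h1) h2).symm)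
  have hX₀' : ∀ g (h1 : g ∈ N) (h2 : g ∈ H'), r i₀ ⟨g, hN i₀ h1⟩ = X₀ * ρ' ⟨g, h2⟩ * X₀⁻¹ := by
    intro g h1 h2
    exact (hX₀ ⟨g, h1, h2⟩).trans (by rw [hM g h1 h2])
  obtain ⟨β, hβ⟩ : ∃ β : N →* GL (Fin n) F, ∀ a : N, β a = X₀⁻¹ * r i₀ ⟨a, hN i₀ a.2⟩ * X₀ := by
    refine ⟨(MulAut.conj X₀⁻¹).toMonoidHom.comp ((r i₀).comp (Subgroup.inclusion (hN i₀))),
      fun a => ?_⟩
    change X₀⁻¹ * r i₀ _ * X₀⁻¹⁻¹ = _
    rw [inv_inv]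
    rfl
  have hag : ∀ g (h1 : g ∈ N) (h2 : g ∈ H'), β ⟨g, h1⟩ = ρ' ⟨g, h2⟩ := by
    intro g h1 h2
    rw [hβ, hX₀' g h1 h2]
    group
  have hf' : Full ρ' := hf.mono fun g => ⟨⟨g, g.2.2⟩, (hM _ g.2.1 g.2.2).symm⟩
  have hc : ∀ (a : N) (h : H'),
      ρ' ⟨(a : G) * h * (a : G)⁻¹, hH'.conj_mem _ h.2 _⟩ = β a * ρ' h * (β a)⁻¹ := by
    intro a
    let c : H' →* H' := (MulAut.conjNormal (H := H') (a : G)).toMonoidHom
    have hcv : ∀ h : H', c h = ⟨(a : G) * h * (a : G)⁻¹, hH'.conj_mem _ h.2 _⟩ := fun h =>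
      Subtype.ext (MulAut.conjNormal_apply _ _)
    let ρa : H' →* GL (Fin n) F := (MulAut.conj (β a)⁻¹).toMonoidHom.comp (ρ'.comp c)
    have hρa : ∀ h, ρa h =
        (β a)⁻¹ * ρ' ⟨(a : G) * h * (a : G)⁻¹, hH'.conj_mem _ h.2 _⟩ * β a := by
      intro h
      change (β a)⁻¹ * ρ' (c h) * (β a)⁻¹⁻¹ = _
      rw [inv_inv, hcv]
    obtain ⟨Y, hY⟩ := bn (ρ' := ρa) hf' (fun h => by
      rw [hρa, Units.val_mul, Units.val_mul, trace_mul_cycle, ← Units.val_mul, mul_inv_cancel,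
        Units.val_one, one_mul]
      exact (ht3 a h).symm)
    have h1 : ∀ A : GL (Fin n) F, Y * A * Y⁻¹ = 1 * A * 1⁻¹ := by
      apply conj_all hf
      rintro ⟨g, h1, h2⟩
      rw [hM g h1 h2, ← hY, hρa, ← hag g h1 h2]
      have h3 : (a : G) * g * (a : G)⁻¹ ∈ N := N.mul_mem (N.mul_mem a.2 h1) (N.inv_mem a.2)
      rw [← hag _ h3]
      have h4 : (⟨(a : G) * g * (a : G)⁻¹, h3⟩ : N) = a * ⟨g, h1⟩ * a⁻¹ := rfl
      rw [h4, map_mul, map_mul, map_inv]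
      group
    intro h
    have h2 := hY h
    rw [h1, one_mul, inv_one, mul_one, hρa] at h2
    rw [← h2]
    group
  obtain ⟨γ, hγ1, hγ2⟩ := glue hH' hNH ρ' β hag hc
  refine ⟨γ, hγ1, fun i => ?_⟩
  have hfβ : Full β := hf.mono fun g => ⟨⟨g, g.2.1⟩, by rw [hM _ g.2.1 g.2.2, hag]⟩
  obtain ⟨X, hX⟩ := bn (ρ' := (r i).comp (Subgroup.inclusion (hN i))) hfβ (fun a => by
    rw [hβ, Units.val_mul, Units.val_mul, trace_mul_cycle, ← Units.val_mul, mul_inv_cancel,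
      Units.val_one, one_mul]
    exact ht2 i₀ i a (hN i₀ a.2) (hN i a.2))
  have hX' : ∀ g (h1 : g ∈ N), r i ⟨g, hN i h1⟩ = X * β ⟨g, h1⟩ * X⁻¹ := fun g h1 => hX ⟨g, h1⟩
  have hfi : Full (ρ'.comp (Subgroup.inclusion (inf_le_right : H i ⊓ H' ≤ H'))) :=
    hf.mono fun g => ⟨⟨g, hN i g.2.1, g.2.2⟩, (hM _ g.2.1 g.2.2).symm⟩
  obtain ⟨Y, hY⟩ := bn (ρ' := (r i).comp (Subgroup.inclusion (inf_le_left : H i ⊓ H' ≤ H i))) hfi
    (fun g => (ht1 i g g.2.1 g.2.2).symm)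
  have hY' : ∀ g (h1 : g ∈ H i) (h2 : g ∈ H'), r i ⟨g, h1⟩ = Y * ρ' ⟨g, h2⟩ * Y⁻¹ :=
    fun g h1 h2 => hY ⟨g, h1, h2⟩
  have hXY : ∀ A : GL (Fin n) F, X * A * X⁻¹ = Y * A * Y⁻¹ := by
    apply conj_all hf
    rintro ⟨g, h1, h2⟩
    rw [hM g h1 h2, ← hY' g (hN i h1) h2, hX' g h1, hag g h1 h2]
  refine ⟨X⁻¹, fun h => ?_⟩
  obtain ⟨a, ha, b, hb, e⟩ := hNH h
  have hb' : b ∈ H i := by
    have : b = a⁻¹ * h := by rw [e, inv_mul_cancel_left]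
    rw [this]
    exact (H i).mul_mem ((H i).inv_mem (hN i ha)) h.2
  have e1 : h = (⟨a, hN i ha⟩ : H i) * ⟨b, hb'⟩ := Subtype.ext e
  have e2 : γ h = β ⟨a, ha⟩ * ρ' ⟨b, hb⟩ := by
    rw [e, map_mul, ← hγ1 ⟨b, hb⟩, ← hγ2 ⟨a, ha⟩]
  rw [e2, e1, map_mul, hX' a ha, hY' b hb' hb, ← hXY]
  group

end Pool.Agent.W2helper17.PF
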