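import Mathlib
import Pool.Agent.W401.Cheb.AbsDefs

/-!
# Patching: definitions for the statements
-/

set_option autoImplicit false

namespace Pool.Agent.W2helper17.PF.S

open NumberField IsDedekindDomain
open Pool.Agent.W401.Cheb

/-! ### groups -/

section
variable {Γ : Type} [Group Γ] {F : Type} [Field F] {n : ℕ}

/-- homomorphisms from a subgroup to `GL_n(F)` -/
abbrev RepH (F : Type) [Field F] (n : ℕ) {Γ : Type} [Group Γ] (H : Subgroup Γ) : Type :=
  H →* Matrix.GeneralLinearGroup (Fin n) F

/-- the value at `σ ∈ H` -/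
def valH {H : Subgroup Γ} (ρ : RepH F n H) (σ : Γ) (h : σ ∈ H) :
    Matrix.GeneralLinearGroup (Fin n) F := ρ ⟨σ, h⟩

/-- continuity -/
def ContH [TopologicalSpace Γ] [TopologicalSpace F] {H : Subgroup Γ} (ρ : RepH F n H) : Prop :=
  Continuous ρ

end

/-! ### Galois groups -/

/-- the finite places of `K` -/
abbrev Pl (K : Type) [Field K] : Type := HeightOneSpectrum (𝓞 K)

/-- the extensions of `K` in its algebraic closure -/
abbrev Ext (K : Type) [Field K] : Type := IntermediateField K (AlgebraicClosure K)

section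
variable {K : Type} [Field K]

/-- the degree of `L` over `K` (zero if it is infinite) -/
noncomputable def deg (L : Ext K) : ℕ := Module.finrank K L

/-- `L` is a finite Galois extension of `K` (the characteristic is zero in all uses) -/
def IsGal (L : Ext K) : Prop := FiniteDimensional K L ∧ Normal K L

/-- the normal closure of `L` over `K` -/
noncomputable def gclosure (L : Ext K) : Ext K :=
  IntermediateField.normalClosure K L (AlgebraicClosure K)

/-- `G_L` -/
noncomputable def gal (L : Ext K) : Subgroup (GK K) := L.fixingSubgroup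

/-- `σ ∈ G_L` -/
def Fixes (σ : GK K) (L : Ext K) : Prop := σ ∈ gal L

/-- conjugation -/
noncomputable def conj (τ σ : GK K) : GK K := τ * σ * τ⁻¹

/-- `σ` fixes a conjugate of `L` -/
def FixesConj (σ : GK K) (L : Ext K) : Prop := ∃ τ : GK K, Fixes (conj τ σ) L

end

variable {K : Type} [Field K] {F : Type} [Field F] {n : ℕ}

/-- homomorphisms `G_L → GL_n(F)` -/
abbrev Rep (F : Type) [Field F] (n : ℕ) {K : Type} [Field K] (L : Ext K) : Type :=
  RepH F n (gal L)

/-- homomorphisms `G_K → GL_n(F)` -/
abbrev RepK (F : Type) [Field F] (n : ℕ) (K : Type) [Field K] : Type :=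
  GK K →* Matrix.GeneralLinearGroup (Fin n) F

/-- the value of `ρ` at `σ ∈ G_L` -/
noncomputable def val {L : Ext K} (ρ : Rep F n L) (σ : GK K) (h : Fixes σ L) :
    Matrix.GeneralLinearGroup (Fin n) F := valH ρ σ h

/-- the value of `ρ` at `σ ∈ G_K` -/
noncomputable def valK (ρ : RepK F n K) (σ : GK K) : Matrix.GeneralLinearGroup (Fin n) F := ρ σ

/-- the matrix of an element of `GL_n(F)` -/
noncomputable def mat (A : Matrix.GeneralLinearGroup (Fin n) F) : Matrix (Fin n) (Fin n) F := A

/-- the characteristic polynomial -/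
noncomputable def ch (A : Matrix.GeneralLinearGroup (Fin n) F) : Polynomial F := (mat A).charpoly

/-- `B = X A X⁻¹` -/
def ConjBy (X A B : Matrix.GeneralLinearGroup (Fin n) F) : Prop := B = X * A * X⁻¹

/-- a set of matrices spans the ring of all matrices -/
def Spans (S : Set (Matrix (Fin n) (Fin n) F)) : Prop := Submodule.span F S = ⊤

/-- The matrices `ρ(σ)` with `σ ∈ G_L ∩ G_B` span the ring of all matrices. By Burnside's theorem this
says that the restriction of `ρ` to `G_{BL}` is absolutely irreducible. -/
def IrrOn (B : Ext K) {L : Ext K} (ρ : Rep F n L) : Prop :=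
  Spans {A | ∃ σ, ∃ h : Fixes σ L, Fixes σ B ∧ A = mat (val ρ σ h)}

/-- The matrices `ρ(σ)` span the ring of all matrices: `ρ` is absolutely irreducible. -/
def IrrK (ρ : RepK F n K) : Prop := Spans {A | ∃ σ, A = mat (valK ρ σ)}

/-- continuity (Krull topology) -/
def Cont [TopologicalSpace F] {L : Ext K} (ρ : Rep F n L) : Prop := ContH ρ

/-- continuity (Krull topology) -/
def ContK [TopologicalSpace F] (ρ : RepK F n K) : Prop := Continuous ρ

variable [NumberField K]

/-- `ρ` is trivial on the elements of `G_L` in inertia groups of `G_K` at `v` -/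
def Unr (v : Pl K) {L : Ext K} (ρ : Rep F n L) : Prop :=
  ∀ σ, ∀ h : Fixes σ L, IsInert v σ → val ρ σ h = 1

/-- `ρ` is unramified at `v` -/
def UnrK (v : Pl K) (ρ : RepK F n K) : Prop := ∀ σ, IsInert v σ → valK ρ σ = 1

/-- `ρ` is a continuous representation of `G_L`, and for `v ∉ T` every Frobenius element of `G_K` at
`v` which lies in `G_L` has the characteristic polynomial `P v`. (These elements are the Frobenius
elements of `G_L` at the primes of `L` above `v` of residue degree one.) -/
def Attached [TopologicalSpace F] (T : Set (Pl K)) (P : Pl K → Polynomial F) {L : Ext K}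
    (ρ : Rep F n L) : Prop :=
  Cont ρ ∧ ∀ v ∉ T, ∀ σ, ∀ h : Fixes σ L, IsFrob v σ → ch (val ρ σ h) = P v

/-- `ρ` is a continuous representation of `G_K`, and for `v ∉ T` every Frobenius element at `v` has the
characteristic polynomial `P v`. -/
def AttachedK [TopologicalSpace F] (T : Set (Pl K)) (P : Pl K → Polynomial F)
    (ρ : RepK F n K) : Prop :=
  ContK ρ ∧ ∀ v ∉ T, ∀ σ, IsFrob v σ → ch (valK ρ σ) = P v

/-- `ρ` patches the representation `ρ'` of `G_{K'}` and the representations `r i` of `G_{L_i}`: it is
attached to `P` and absolutely irreducible, it restricts to `ρ'` and up to conjugation to the `r i`, it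
is unramified wherever `ρ'` and all `r i` are, and it is unique up to conjugation -/
structure Patches [TopologicalSpace F] (T : Set (Pl K)) (P : Pl K → Polynomial F) {K' : Ext K}
    (ρ' : Rep F n K') {ι : Type} {L : ι → Ext K} (r : ∀ i, Rep F n (L i)) (ρ : RepK F n K) :
    Prop where
  att : AttachedK T P ρ
  irr : IrrK ρ
  res' : ∀ σ, ∀ h : Fixes σ K', valK ρ σ = val ρ' σ h
  res : ∀ i, ∃ X, ∀ σ, ∀ h : Fixes σ (L i), ConjBy X (val (r i) σ h) (valK ρ σ)
  unr : ∀ v, Unr v ρ' → (∀ i, Unr v (r i)) → UnrK v ρ
  uniq : ∀ ρ₂ : RepK F n K, AttachedK T P ρ₂ → ∃ X, ∀ σ, ConjBy X (valK ρ σ) (valK ρ₂ σ)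

/-- Representations over `K'` and over the `L i` patch: if `ρ'` is attached to `P` over `K'`, if `r i`
is attached to `P` over `L i` for all `i`, and if `ρ'` is absolutely irreducible on `G_{BK'}`, then
there is a representation `ρ` over `K` which patches them. -/
def Patch {K : Type} [Field K] [NumberField K] (K' B : Ext K) {ι : Type} (L : ι → Ext K) : Prop :=
  ∀ (F : Type) [Field F] [TopologicalSpace F] [IsTopologicalRing F] [T2Space F] (n : ℕ)
    (T : Set (Pl K)) (P : Pl K → Polynomial F), T.Finite →
    ∀ (ρ' : Rep F n K') (r : ∀ i, Rep F n (L i)),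
      Attached T P ρ' → (∀ i, Attached T P (r i)) → IrrOn B ρ' →
      ∃ ρ : RepK F n K, Patches T P ρ' r ρ

end Pool.Agent.W2helper17.PF.S
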